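import Pool.Agent.H70.PL.Sca

/-!
SHARP RATE, piece 2 (PLANAR), module PER: perturbed maps: elementary estimates.

`per_d`: `cauP` for `F1 - F` with radius 1. `per_J`: `F1 ∧ F1' - F ∧ F' = (F1 - F) ∧ F1' + F ∧ (F1' - F')`, with
`nm (F1 - F) ≤ τ w`, `nm (F1' - F') ≤ τ w`, `nm F1' ≤ nm F' + τ w` and `τ w ≤ k1 t w ≤ nm F`. `per_self`: `F` itself.
`per_b`, `per_b1`, `per_bJ`: bounds of `F1`, `F1'`, `J1` on `‖u‖ ≤ 3`, `5/2` (Cauchy with radius `1/2`), `5/2`.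
-/

set_option autoImplicit false

namespace Pool.Agent.H70.PL

open Pool.H70.SF

theorem per_self {τ w : ℝ} (hτ : 0 ≤ τ) (hw : 0 < w) {F : ℂ → ℂ × ℂ} (hF : Differentiable ℂ F) :
    Per τ w F F := by
  refine ⟨hF, fun u _ => ?_⟩
  rw [sub_self, (nm_eq_zero 0).2 rfl]
  exact mul_nonneg hτ hw.le

theorem per_d {τ w : ℝ} {F F1 : ℂ → ℂ × ℂ} (hF : Differentiable ℂ F) (hP : Per τ w F F1) (x : ℂ)
    (hx : ‖x‖ ≤ 2) : nm (deriv F1 x - deriv F x) ≤ τ * w := by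
  have h := cauP (F := fun y => F1 y - F y) (hP.dif.sub hF) x 1 (τ * w) one_pos (fun v hv => by
    have h1 : ‖v‖ ≤ 3 := by
      have := norm_add_le (v - x) x
      rw [sub_add_cancel] at this
      linarith
    exact hP.near v h1)
  have h2 : deriv (fun y => F1 y - F y) x = deriv F1 x - deriv F x :=
    deriv_fun_sub (hP.dif x) (hF x)
  rw [h2, div_one] at h
  exact h

theorem per_J {M w t τ k1 k2 qn : ℝ} (hw : 0 < w) (hτ : 0 ≤ τ) (hτk : τ ≤ k1 * t) {F F1 : ℂ → ℂ × ℂ}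
    (hF : Sta M w t k1 k2 qn F) (hP : Per τ w F F1) (x : ℂ) (hx : ‖x‖ ≤ 2) :
    ‖Jc F1 x - Jc F x‖ ≤ 2 * τ * w * (nm (F x) + nm (deriv F x)) := by
  have h1 : Jc F1 x - Jc F x = wd (F1 x - F x) (deriv F1 x) + wd (F x) (deriv F1 x - deriv F x) := by
    simp only [Jc, wd, Prod.fst_sub, Prod.snd_sub]
    ring
  have hd := per_d hF.dif hP x hx
  have hn := hP.near x (by linarith)
  have h2 := nm_rev (deriv F1 x) (deriv F x)
  have h3 : τ * w ≤ nm (F x) := by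
    refine le_trans ?_ (hF.low x hx)
    exact mul_le_mul_of_nonneg_right hτk hw.le
  have h4 : 0 ≤ τ * w := mul_nonneg hτ hw.le
  rw [h1]
  calc ‖wd (F1 x - F x) (deriv F1 x) + wd (F x) (deriv F1 x - deriv F x)‖
      ≤ ‖wd (F1 x - F x) (deriv F1 x)‖ + ‖wd (F x) (deriv F1 x - deriv F x)‖ := norm_add_le _ _
    _ ≤ nm (F1 x - F x) * nm (deriv F1 x) + nm (F x) * nm (deriv F1 x - deriv F x) :=
        add_le_add (wd_le _ _) (wd_le _ _)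
    _ ≤ (τ * w) * (nm (deriv F x) + nm (F x)) + nm (F x) * (τ * w) := by
        refine add_le_add (mul_le_mul hn (by linarith) (nm_nonneg _) h4)
          (mul_le_mul_of_nonneg_left hd (nm_nonneg _))
    _ ≤ 2 * τ * w * (nm (F x) + nm (deriv F x)) := by
        have := mul_nonneg h4 (nm_nonneg (deriv F x))
        linarith

theorem per_b {M w t τ k1 k2 qn : ℝ} (hM : 1 ≤ M) (hw : 0 < w) (hτ1 : τ ≤ 1) {F F1 : ℂ → ℂ × ℂ}
    (hF : Sta M w t k1 k2 qn F) (hP : Per τ w F F1) (x : ℂ) (hx : ‖x‖ ≤ 3) :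
    nm (F1 x) ≤ 2 * M * w := by
  have h1 := nm_rev (F1 x) (F x)
  have h2 := hP.near x hx
  have h3 := hF.bd x (by linarith)
  have h4 : τ * w ≤ 1 * w := mul_le_mul_of_nonneg_right hτ1 hw.le
  have h5 : 1 * w ≤ M * w := mul_le_mul_of_nonneg_right hM hw.le
  linarith

theorem per_b1 {M w t τ k1 k2 qn : ℝ} (hM : 1 ≤ M) (hw : 0 < w) (hτ1 : τ ≤ 1) {F F1 : ℂ → ℂ × ℂ}
    (hF : Sta M w t k1 k2 qn F) (hP : Per τ w F F1) (x : ℂ) (hx : ‖x‖ ≤ 5 / 2) :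
    nm (deriv F1 x) ≤ 4 * M * w := by
  have h := cauP hP.dif x (1 / 2) (2 * M * w) (by norm_num) (fun v hv => by
    have h1 : ‖v‖ ≤ 3 := by
      have := norm_add_le (v - x) x
      rw [sub_add_cancel] at this
      linarith
    exact per_b hM hw hτ1 hF hP v h1)
  have h2 : 2 * M * w / (1 / 2) = 4 * M * w := by ring
  rwa [h2] at h

theorem per_bJ {M w t τ k1 k2 qn : ℝ} (hM : 1 ≤ M) (hw : 0 < w) (hτ1 : τ ≤ 1) {F F1 : ℂ → ℂ × ℂ}
    (hF : Sta M w t k1 k2 qn F) (hP : Per τ w F F1) (x : ℂ) (hx : ‖x‖ ≤ 5 / 2) :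
    ‖Jc F1 x‖ ≤ 8 * M ^ 2 * w ^ 2 := by
  have h1 := per_b hM hw hτ1 hF hP x (by linarith)
  have h2 := per_b1 hM hw hτ1 hF hP x hx
  have h3 : 0 ≤ 2 * M * w := by positivity
  calc ‖Jc F1 x‖ ≤ nm (F1 x) * nm (deriv F1 x) := wd_le _ _
    _ ≤ (2 * M * w) * (4 * M * w) := mul_le_mul h1 h2 (nm_nonneg _) h3
    _ = 8 * M ^ 2 * w ^ 2 := by ring

end Pool.Agent.H70.PL
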