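import Pool.Agent.H70.PL.F1
import Pool.Agent.H70.PL.Per

/-!
SHARP RATE, piece 2 (PLANAR), module F1P: (F3) and (F1') for perturbed maps.

`f3`: `nm (F1 - F) ≤ τ w` and `k1 t w ≤ nm F`.
`f1p_of`: from `kap t w a / S ≤ ‖J u‖` (`a = nm (F u)`): `‖J1 u‖ ≥ ‖J u‖ - 2 τ w (a + nm (F' u))` (`per_J`; `τ ≤ k1 t` follows from
`A τ ≤ kap k1 t`, `kap ≤ 1`), `nm (F' u) ≤ a / (2 S)` (`nsc_d0`), `S ≤ 1`, so the loss is at most `3 τ w a / S ≤ (kap / 2) t w a / S`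
as `A ≥ 6` and `k1 ≤ 1`. (`kap ≤ 1`: `A kap ≤ k2 S0 ≤ 1`.) `f1p`: `f1` and `f1p_of`.
-/

set_option autoImplicit false

namespace Pool.Agent.H70.PL

open Pool.H70.SF

private theorem f1p_pos {A L t τ q q1 qn k1 k2 kap S0 : ℝ} {m : ℕ}
    (hK : Kon A L t τ q q1 qn k1 k2 kap S0 m) :
    0 < t ∧ 0 < k1 ∧ 0 < k2 ∧ 0 < kap :=
  ⟨(Real.exp_pos _).trans_le hK.tL, (Real.exp_pos _).trans_le hK.k1L,
    (Real.exp_pos _).trans_le hK.k2L, (Real.exp_pos _).trans_le hK.kapL⟩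

private theorem f1p_tau {A L t τ q q1 qn k1 k2 kap S0 : ℝ} {m : ℕ} (hA : 100 ≤ A)
    (hK : Kon A L t τ q q1 qn k1 k2 kap S0 m) : τ ≤ k1 * t ∧ 6 * τ ≤ kap * t := by
  obtain ⟨ht, hk1, hk2, hkap⟩ := f1p_pos hK
  have h1 := hK.τk
  have h2 := hK.τ0
  have h3 : kap ≤ 1 := by
    have h4 := hK.kapS
    have h5 : k2 * S0 ≤ 1 := by
      have h6 := hK.k2b
      have h7 := hK.S0b
      have h8 := hK.S0p
      nlinarith
    nlinarith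
  have h9 : τ * 100 ≤ A * τ := by nlinarith
  have h10 : kap * k1 * t ≤ k1 * t := by
    have : 0 ≤ k1 * t := (mul_pos hk1 ht).le
    nlinarith
  have h11 : kap * k1 * t ≤ kap * t := by
    have h12 : 0 ≤ kap * t := (mul_pos hkap ht).le
    have := hK.k1b
    nlinarith
  constructor <;> linarith

theorem f3 (M A L t τ q q1 qn k1 k2 kap S0 w : ℝ) (m : ℕ) (hM : 1 ≤ M) (hA : 100 * M ≤ A)
    (hw : 0 < w) (hK : Kon A L t τ q q1 qn k1 k2 kap S0 m) (F F1 : ℂ → ℂ × ℂ)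
    (hF : Sta M w t k1 k2 qn F) (hP : Per τ w F F1) (u : ℂ) (hu : ‖u‖ ≤ 2) :
    nm (F1 u - F u) ≤ τ / (k1 * t) * nm (F u) := by
  obtain ⟨ht, hk1, hk2, hkap⟩ := f1p_pos hK
  have h1 := hP.near u (by linarith)
  have h2 := hF.low u hu
  have h3 : 0 < k1 * t := mul_pos hk1 ht
  refine h1.trans ?_
  rw [div_mul_eq_mul_div, le_div_iff₀ h3]
  calc τ * w * (k1 * t) = τ * (k1 * t * w) := by ring
    _ ≤ τ * nm (F u) := mul_le_mul_of_nonneg_left h2 hK.τ0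

theorem f1p_of (M A L t τ q q1 qn k1 k2 kap S0 w : ℝ) (m : ℕ) (hM : 1 ≤ M) (hA : 100 * M ≤ A)
    (hw : 0 < w) (hK : Kon A L t τ q q1 qn k1 k2 kap S0 m) (F F1 : ℂ → ℂ × ℂ)
    (hF : Sta M w t k1 k2 qn F) (hP : Per τ w F F1) (u : ℂ) (hu : ‖u‖ ≤ 2) (S : ℝ)
    (hS : Nsc F u S) (h : kap * t * w * nm (F u) / S ≤ ‖Jc F u‖) :
    kap / 2 * t * w * nm (F u) / S ≤ ‖Jc F1 u‖ := by
  obtain ⟨ht, hk1, hk2, hkap⟩ := f1p_pos hK
  obtain ⟨hτ1, hτ2⟩ := f1p_tau (by linarith) hK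
  have h1 := per_J hw hK.τ0 hτ1 hF hP u hu
  have h2 := nsc_d0 hF.dif hS
  have hS0 := hS.1
  have hS1 := hS.2.1
  have ha := nm_nonneg (F u)
  obtain ⟨a, ha'⟩ : ∃ a : ℝ, a = nm (F u) := ⟨_, rfl⟩
  rw [← ha'] at h1 h2 h ha ⊢
  have h3 : a ≤ a / S := by
    rw [le_div_iff₀ hS0]
    nlinarith
  have h4 : a + nm (deriv F u) ≤ 3 / 2 * (a / S) := by
    have e1 : a / (2 * S) = 1 / 2 * (a / S) := by
      field_simp
    rw [e1] at h2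
    linarith
  have haS : 0 ≤ a / S := div_nonneg ha hS0.le
  have h5 : 2 * τ * w * (a + nm (deriv F u)) ≤ kap / 2 * t * w * (a / S) := by
    have h6 : 0 ≤ 2 * τ * w := by
      have := hK.τ0
      positivity
    have h7 : 2 * τ * w * (a + nm (deriv F u)) ≤ 2 * τ * w * (3 / 2 * (a / S)) :=
      mul_le_mul_of_nonneg_left h4 h6
    have h8 : 0 ≤ w * (a / S) := mul_nonneg hw.le haS
    nlinarith
  have h9 : ‖Jc F u‖ ≤ ‖Jc F1 u‖ + ‖Jc F1 u - Jc F u‖ := by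
    have h10 := norm_sub_le (Jc F1 u) (Jc F1 u - Jc F u)
    rwa [sub_sub_cancel] at h10
  have e2 : kap * t * w * a / S = kap * t * w * (a / S) := by ring
  have e3 : kap / 2 * t * w * a / S = kap / 2 * t * w * (a / S) := by ring
  rw [e2] at h
  rw [e3]
  linarith

/-- (F1') -/
theorem f1p (M A L t τ q q1 qn k1 k2 kap S0 w : ℝ) (m : ℕ) (hM : 1 ≤ M) (hA : 100 * M ≤ A)
    (hw : 0 < w) (hK : Kon A L t τ q q1 qn k1 k2 kap S0 m) (F F1 : ℂ → ℂ × ℂ)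
    (hF : Sta M w t k1 k2 qn F) (hP : Per τ w F F1) (u : ℂ) (hu : ‖u‖ ≤ 5 / 4) (S : ℝ)
    (hS : Nsc F u S) (hz : ∀ z, ‖z - u‖ < q * S → Jc F z ≠ 0) :
    kap / 2 * t * w * nm (F u) / S ≤ ‖Jc F1 u‖ :=
  f1p_of M A L t τ q q1 qn k1 k2 kap S0 w m hM hA hw hK F F1 hF hP u (by linarith) S hS
    (f1 M A L t τ q q1 qn k1 k2 kap S0 w m hM hA hw hK F hF u hu S hS hz)

end Pool.Agent.H70.PL
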