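import Pool.Agent.H70.PL.Sca

/-!
SHARP RATE, piece 2 (PLANAR), module NCM: natural scales at near points are comparable.

Let `a = nm (F u) > 0`.
Lower bound: suppose `S' < S/4` (so `S' < 1`); there is `v0`, `‖v0 - v‖ ≤ S'`, with `nm (F v0 - F v) = nm (F v) / 2`.
`‖v0 - u‖ ≤ 3S/8`, so by `nsc_sch` at `u`: `nm (F v0 - F u) ≤ 3a/16`, `nm (F v - F u) ≤ a/16`, `nm (F v0 - F v) ≤ a/4`, but
`nm (F v) / 2 ≥ 15a/32`: contradiction.
Upper bound: suppose `S' > 4S`; then `S < 1` and there is `v0`, `‖v0 - u‖ ≤ S`, with `nm (F v0 - F u) = a/2`. `nsc_sch` at `v`: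
`nm (F v0 - F v) ≤ (9/32) b/2`, `nm (F u - F v) ≤ (1/32) b/2` with `b = nm (F v)`. So `a/2 ≤ (10/32) b/2`, but
`b ≤ a + b/64`, i.e. `b ≤ 64a/63`: contradiction with `a > 0`.
-/

set_option autoImplicit false

namespace Pool.Agent.H70.PL

open Pool.H70.SF

private theorem ncm_aux {F : ℂ → ℂ × ℂ} (hF : Differentiable ℂ F) {u : ℂ} {S : ℝ} (h : Nsc F u S)
    (x : ℂ) (c : ℝ) (hc : c ≤ 1) (hx : ‖x - u‖ ≤ c * S) :
    nm (F x - F u) ≤ c * (nm (F u) / 2) := by
  have hS := h.1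
  have h1 := nsc_sch hF h x (hx.trans (by nlinarith))
  refine h1.trans (mul_le_mul_of_nonneg_right ?_ (by have := nm_nonneg (F u); linarith))
  rwa [div_le_iff₀ hS]

theorem nsc_cmp {F : ℂ → ℂ × ℂ} (hF : Differentiable ℂ F) {u v : ℂ} {S S' : ℝ} (h : Nsc F u S)
    (h' : Nsc F v S') (hu : 0 < nm (F u)) (huv : ‖v - u‖ ≤ S / 8) : S / 4 ≤ S' ∧ S' ≤ 4 * S := by
  have hS := h.1
  have hS' := h'.1
  have hvu : nm (F v - F u) ≤ 1 / 8 * (nm (F u) / 2) :=
    ncm_aux hF h v (1 / 8) (by norm_num) (by linarith)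
  constructor
  · by_contra hlt
    push Not at hlt
    rcases h'.2.2.2 with h1 | ⟨v0, hv0, h1⟩
    · have := h.2.1
      linarith
    · have h2 : ‖v0 - u‖ ≤ 3 / 8 * S := by
        have e : v0 - u = (v0 - v) + (v - u) := by ring
        rw [e]
        have := norm_add_le (v0 - v) (v - u)
        linarith
      have h3 : nm (F v0 - F u) ≤ 3 / 8 * (nm (F u) / 2) :=
        ncm_aux hF h v0 (3 / 8) (by norm_num) h2
      have h4 := nm_tri (F v0) (F u) (F v)
      rw [nm_sub_comm (F u) (F v)] at h4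
      have h5 := nm_rev (F u) (F v)
      rw [nm_sub_comm (F u) (F v)] at h5
      linarith
  · by_contra hlt
    push Not at hlt
    rcases h.2.2.2 with h1 | ⟨v0, hv0, h1⟩
    · have := h'.2.1
      linarith
    · have h2 : ‖v0 - v‖ ≤ 9 / 32 * S' := by
        have e : v0 - v = (v0 - u) + (u - v) := by ring
        rw [e]
        have h3 := norm_add_le (v0 - u) (u - v)
        have h4 : ‖u - v‖ = ‖v - u‖ := norm_sub_rev _ _
        linarith
      have h3 : nm (F v0 - F v) ≤ 9 / 32 * (nm (F v) / 2) :=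
        ncm_aux hF h' v0 (9 / 32) (by norm_num) h2
      have h4 : nm (F u - F v) ≤ 1 / 32 * (nm (F v) / 2) :=
        ncm_aux hF h' u (1 / 32) (by norm_num) (by rw [norm_sub_rev]; linarith)
      have h5 := nm_tri (F v0) (F v) (F u)
      rw [nm_sub_comm (F v) (F u)] at h5
      have h6 := nm_rev (F v) (F u)
      rw [nm_sub_comm (F v) (F u)] at h6
      linarith

end Pool.Agent.H70.PL
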