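import Pool.Agent.H70.PL.Pr

/-!
SHARP RATE, piece 2 (PLANAR), module NEX: existence of the natural scale.

Let `E = {r ∈ [0,1] : ∀ v, ‖v - u‖ ≤ r → nm (F v - F u) ≤ nm (F u) / 2}` and `S = sSup E`. `E` contains a positive number by
continuity (`nm_cont`, `0 < nm (F u) / 2`). `S ∈ E`: if `‖v - u‖ < S` there is `r ∈ E` with `‖v - u‖ < r`; if `‖v - u‖ = S`
approximate `v` by the points `u + s (v - u)`, `s < 1`, and use continuity. If `S < 1`: for every `k` there is `v_k` with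
`‖v_k - u‖ ≤ S + 1/k` and `nm (F v_k - F u) > nm (F u) / 2`; a limit point `v` (compact ball) has `‖v - u‖ ≤ S` and
`nm (F v - F u) ≥ nm (F u) / 2`, hence equality.
-/

set_option autoImplicit false

namespace Pool.Agent.H70.PL

open Pool.H70.SF

theorem nsc_ex {F : ℂ → ℂ × ℂ} (hF : Continuous F) (u : ℂ) (h : 0 < nm (F u)) : ∃ S, Nsc F u S := by
  have hc : Continuous fun v => nm (F v - F u) := nm_cont.comp (hF.sub continuous_const)
  by_cases hD : ∃ v, ‖v - u‖ ≤ 1 ∧ nm (F u) / 2 ≤ nm (F v - F u)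
  · have hcomp : IsCompact (Metric.closedBall u 1 ∩ {v | nm (F u) / 2 ≤ nm (F v - F u)}) :=
      (isCompact_closedBall u 1).inter_right (isClosed_le continuous_const hc)
    obtain ⟨v1, hv1, hv1'⟩ := hD
    obtain ⟨v0, hv0, hmin⟩ := hcomp.exists_isMinOn
      ⟨v1, mem_closedBall_iff_norm.2 hv1, hv1'⟩
      (f := fun v => ‖v - u‖) (by fun_prop)
    have hv0a : ‖v0 - u‖ ≤ 1 := mem_closedBall_iff_norm.1 hv0.1
    have hv0b : nm (F u) / 2 ≤ nm (F v0 - F u) := hv0.2
    have hpos : 0 < ‖v0 - u‖ := by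
      rw [norm_pos_iff, sub_ne_zero]
      intro h0
      rw [h0, sub_self, (nm_eq_zero 0).2 rfl] at hv0b
      linarith
    have hin : ∀ v ∈ Metric.ball u ‖v0 - u‖, nm (F v - F u) ≤ nm (F u) / 2 := by
      intro v hv
      rw [mem_ball_iff_norm] at hv
      by_contra hcon
      push Not at hcon
      have h1 := hmin (a := v) ⟨mem_closedBall_iff_norm.2 (hv.le.trans hv0a), hcon.le⟩
      exact absurd h1 (not_le.2 hv)
    have hcl : ∀ v, ‖v - u‖ ≤ ‖v0 - u‖ → nm (F v - F u) ≤ nm (F u) / 2 := by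
      intro v hv
      have h1 : v ∈ closure (Metric.ball u ‖v0 - u‖) := by
        rw [closure_ball u hpos.ne']
        exact mem_closedBall_iff_norm.2 hv
      have h2 : IsClosed {v | nm (F v - F u) ≤ nm (F u) / 2} := isClosed_le hc continuous_const
      exact h2.closure_subset_iff.2 hin h1
    exact ⟨‖v0 - u‖, hpos, hv0a, hcl, Or.inr ⟨v0, le_rfl, le_antisymm (hcl v0 le_rfl) hv0b⟩⟩
  · push Not at hD
    exact ⟨1, one_pos, le_rfl, fun v hv => (hD v hv).le, Or.inl rfl⟩

end Pool.Agent.H70.PL
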