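import Mathlib

/-!
SHARP RATE, piece 2 (PLANAR), module ZC: zero count with Blaschke factors (scalar, Mathlib only).

`zc_div`: by induction on `T` (`dslope f z` is entire and `f u = (u - z) dslope f z u` if `f z = 0`; for another zero `z'`
of `f`, `dslope f z z' = 0`).
`zc`: let `f u = g u ∏_{z ∈ T} (u - z)`, and `k u = g u ∏_{z ∈ T} (R² - conj z u)/R`. For `‖u‖ = R`:
`‖(R² - conj z u)/R‖ = ‖u - z‖` (as `R² = u conj u`), so `‖k u‖ = ‖f u‖ ≤ B`; by the maximum principle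
(`Complex.norm_le_of_forall_mem_frontier_norm_le` on `ball 0 R`) `‖k n‖ ≤ B` for `‖n‖ ≤ R`. For `‖z‖, ‖n‖ ≤ R/2`:
`‖n - z‖ ≤ (4/5) ‖(R² - conj z n)/R‖`, because `R² ‖n - z‖² = ‖R² - conj z n‖² - (R² - ‖z‖²)(R² - ‖n‖²)` and
`‖R² - conj z n‖ ≤ 5R²/4`, `(R² - ‖z‖²)(R² - ‖n‖²) ≥ 9R⁴/16 ≥ (9/25) ‖R² - conj z n‖²`.
`zcn`: every finite set `T` of zeros has `B e^(-K) ≤ B (4/5)^card`, so `card ≤ K / log (5/4) ≤ 5 K`; a set all of whose
finite subsets have bounded cardinality is finite.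
-/

set_option autoImplicit false

namespace Pool.Agent.H70.PL

open ComplexConjugate

theorem zc_div (T : Finset ℂ) (f : ℂ → ℂ) (hf : Differentiable ℂ f) (h : ∀ z ∈ T, f z = 0) :
    ∃ g : ℂ → ℂ, Differentiable ℂ g ∧ ∀ u, f u = g u * ∏ z ∈ T, (u - z) := by
  classical
  induction T using Finset.induction_on generalizing f with
  | empty => exact ⟨f, hf, fun u => by rw [Finset.prod_empty, mul_one]⟩
  | insert a T ha ih =>
    have h1 : Differentiable ℂ (dslope f a) := by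
      rw [← differentiableOn_univ]
      exact (Complex.differentiableOn_dslope Filter.univ_mem).2 hf.differentiableOn
    have h2 : ∀ u, f u = (u - a) * dslope f a u := by
      intro u
      have := sub_smul_dslope f a u
      rw [h a (Finset.mem_insert_self a T), sub_zero, smul_eq_mul] at this
      exact this.symm
    obtain ⟨g, hg, hg2⟩ := ih (dslope f a) h1 fun z hz => by
      have h3 := h2 z
      rw [h z (Finset.mem_insert_of_mem hz)] at h3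
      rcases mul_eq_zero.1 h3.symm with h4 | h4
      · exact absurd (sub_eq_zero.1 h4 ▸ hz) ha
      · exact h4
    refine ⟨g, hg, fun u => ?_⟩
    rw [h2 u, hg2 u, Finset.prod_insert ha]
    ring

private theorem zc_id (z n : ℂ) (R : ℝ) :
    R ^ 2 * ‖n - z‖ ^ 2 = ‖(R : ℂ) ^ 2 - conj z * n‖ ^ 2 -
      (R ^ 2 - ‖z‖ ^ 2) * (R ^ 2 - ‖n‖ ^ 2) := by
  have nsq : ∀ w : ℂ, ((‖w‖ ^ 2 : ℝ) : ℂ) = w * conj w := fun w => by
    rw [Complex.mul_conj, Complex.normSq_eq_norm_sq]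
  have h : ((R ^ 2 * ‖n - z‖ ^ 2 : ℝ) : ℂ) = ((‖(R : ℂ) ^ 2 - conj z * n‖ ^ 2 -
      (R ^ 2 - ‖z‖ ^ 2) * (R ^ 2 - ‖n‖ ^ 2) : ℝ) : ℂ) := by
    rw [Complex.ofReal_mul, Complex.ofReal_sub, Complex.ofReal_mul, Complex.ofReal_sub,
      Complex.ofReal_sub, nsq, nsq, nsq, nsq]
    simp only [map_sub, map_mul, map_pow, Complex.conj_conj, Complex.conj_ofReal,
      Complex.ofReal_pow]
    ring
  exact_mod_cast h

private theorem zc_pt (z n : ℂ) (R : ℝ) (hR : 0 < R) (hz : ‖z‖ ≤ R / 2) (hn : ‖n‖ ≤ R / 2) :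
    ‖n - z‖ ≤ 4 / 5 * ‖((R : ℂ) ^ 2 - conj z * n) / R‖ := by
  have h1 := zc_id z n R
  have hz0 := norm_nonneg z
  have hn0 := norm_nonneg n
  have h2 : ‖(R : ℂ) ^ 2 - conj z * n‖ ≤ 5 / 4 * R ^ 2 := by
    have h3 := norm_sub_le ((R : ℂ) ^ 2) (conj z * n)
    rw [norm_pow, Complex.norm_real, Real.norm_of_nonneg hR.le, norm_mul,
      RCLike.norm_conj] at h3
    have h4 : ‖z‖ * ‖n‖ ≤ (R / 2) * (R / 2) := mul_le_mul hz hn hn0 (by linarith)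
    nlinarith
  have h3 : 9 / 16 * R ^ 4 ≤ (R ^ 2 - ‖z‖ ^ 2) * (R ^ 2 - ‖n‖ ^ 2) := by
    have e1 : 3 / 4 * R ^ 2 ≤ R ^ 2 - ‖z‖ ^ 2 := by nlinarith
    have e2 : 3 / 4 * R ^ 2 ≤ R ^ 2 - ‖n‖ ^ 2 := by nlinarith
    have e3 : (3 / 4 * R ^ 2) * (3 / 4 * R ^ 2) ≤ (R ^ 2 - ‖z‖ ^ 2) * (R ^ 2 - ‖n‖ ^ 2) :=
      mul_le_mul e1 e2 (by positivity) (le_trans (by positivity) e1)
    nlinarith
  have hw0 := norm_nonneg ((R : ℂ) ^ 2 - conj z * n)
  have h4 : ‖(R : ℂ) ^ 2 - conj z * n‖ ^ 2 ≤ 25 / 16 * R ^ 4 := by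
    have := mul_le_mul h2 h2 hw0 (by positivity)
    nlinarith
  have h5 : (R * ‖n - z‖) ^ 2 ≤ (4 / 5 * ‖(R : ℂ) ^ 2 - conj z * n‖) ^ 2 := by
    rw [mul_pow, mul_pow, h1]
    nlinarith
  have h6 : R * ‖n - z‖ ≤ 4 / 5 * ‖(R : ℂ) ^ 2 - conj z * n‖ :=
    le_of_sq_le_sq h5 (by positivity)
  rw [norm_div, Complex.norm_real, Real.norm_of_nonneg hR.le, ← mul_div_assoc, le_div_iff₀ hR]
  linarith

private theorem zc_bd (z u : ℂ) (R : ℝ) (hR : 0 < R) (hu : ‖u‖ = R) :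
    ‖((R : ℂ) ^ 2 - conj z * u) / R‖ = ‖u - z‖ := by
  have h1 := zc_id z u R
  rw [hu, sub_self, mul_zero, sub_zero] at h1
  rw [norm_div, Complex.norm_real, Real.norm_of_nonneg hR.le, div_eq_iff hR.ne']
  have h2 : (‖(R : ℂ) ^ 2 - conj z * u‖) ^ 2 = (‖u - z‖ * R) ^ 2 := by
    rw [← h1]
    ring
  exact (pow_left_inj₀ (norm_nonneg _) (by positivity) two_ne_zero).1 h2

theorem zc (f : ℂ → ℂ) (hf : Differentiable ℂ f) (R B : ℝ) (hR : 0 < R)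
    (hB : ∀ u, ‖u‖ ≤ R → ‖f u‖ ≤ B) (T : Finset ℂ) (hT : ∀ z ∈ T, ‖z‖ ≤ R / 2 ∧ f z = 0) (n : ℂ)
    (hn : ‖n‖ ≤ R / 2) : ‖f n‖ ≤ B * (4 / 5) ^ T.card := by
  obtain ⟨g, hg, hfg⟩ := zc_div T f hf fun z hz => (hT z hz).2
  have hk : Differentiable ℂ fun u => g u * ∏ z ∈ T, (((R : ℂ) ^ 2 - conj z * u) / R) := by
    refine hg.mul ?_
    have h1 : ∀ z ∈ T, Differentiable ℂ fun u : ℂ => ((R : ℂ) ^ 2 - conj z * u) / R :=
      fun z _ => by fun_prop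
    exact Differentiable.fun_finsetProd h1
  have h1 : ‖g n * ∏ z ∈ T, (((R : ℂ) ^ 2 - conj z * n) / R)‖ ≤ B := by
    refine Complex.norm_le_of_forall_mem_frontier_norm_le (U := Metric.ball 0 R)
      (f := fun u => g u * ∏ z ∈ T, (((R : ℂ) ^ 2 - conj z * u) / R))
      Metric.isBounded_ball hk.diffContOnCl ?_ ?_
    · intro u hu
      rw [frontier_ball 0 hR.ne', mem_sphere_zero_iff_norm] at hu
      have h2 : ‖g u * ∏ z ∈ T, (((R : ℂ) ^ 2 - conj z * u) / R)‖ = ‖f u‖ := by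
        rw [hfg u, norm_mul, norm_mul, norm_prod, norm_prod]
        congr 1
        exact Finset.prod_congr rfl fun z _ => zc_bd z u R hR hu
      rw [h2]
      exact hB u hu.le
    · rw [closure_ball 0 hR.ne', mem_closedBall_zero_iff]
      linarith
  have h2 : ‖f n‖ ≤ (4 / 5) ^ T.card * ‖g n * ∏ z ∈ T, (((R : ℂ) ^ 2 - conj z * n) / R)‖ := by
    rw [hfg n, norm_mul, norm_mul, norm_prod, norm_prod]
    have h3 : ∏ z ∈ T, ‖n - z‖ ≤
        ∏ z ∈ T, (4 / 5 * ‖((R : ℂ) ^ 2 - conj z * n) / R‖) :=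
      Finset.prod_le_prod (fun z _ => norm_nonneg _) fun z hz => zc_pt z n R hR (hT z hz).1 hn
    rw [Finset.prod_mul_distrib, Finset.prod_const] at h3
    calc _ ≤ ‖g n‖ * ((4 / 5) ^ T.card * ∏ z ∈ T, ‖((R : ℂ) ^ 2 - conj z * n) / R‖) :=
          mul_le_mul_of_nonneg_left h3 (norm_nonneg _)
      _ = _ := by ring
  refine h2.trans ?_
  rw [mul_comm]
  exact mul_le_mul_of_nonneg_right h1 (by positivity)

theorem zcn (f : ℂ → ℂ) (hf : Differentiable ℂ f) (R B K : ℝ) (hR : 0 < R) (hB0 : 0 < B)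
    (hB : ∀ u, ‖u‖ ≤ R → ‖f u‖ ≤ B) (n : ℂ) (hn : ‖n‖ ≤ R / 2) (hK : B * Real.exp (-K) ≤ ‖f n‖) :
    {z : ℂ | ‖z‖ ≤ R / 2 ∧ f z = 0}.Finite ∧
      ({z : ℂ | ‖z‖ ≤ R / 2 ∧ f z = 0}.ncard : ℝ) ≤ 5 * K := by
  have hmain : ∀ T : Finset ℂ, (T : Set ℂ) ⊆ {z : ℂ | ‖z‖ ≤ R / 2 ∧ f z = 0} →
      (T.card : ℝ) ≤ 5 * K := by
    intro T hT
    have h1 := zc f hf R B hR hB T (fun z hz => hT (Finset.mem_coe.2 hz)) n hn
    have h2 : Real.exp (-K) ≤ (4 / 5 : ℝ) ^ T.card :=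
      le_of_mul_le_mul_left (hK.trans h1) hB0
    have h3 : -K ≤ T.card * Real.log (4 / 5) := by
      rw [← Real.log_pow, Real.le_log_iff_exp_le (by positivity)]
      exact h2
    have h4 : Real.log (4 / 5) ≤ -(1 / 5) := by
      have := Real.log_le_sub_one_of_pos (show (0 : ℝ) < 4 / 5 by norm_num)
      linarith
    have h5 : (T.card : ℝ) * Real.log (4 / 5) ≤ T.card * (-(1 / 5)) :=
      mul_le_mul_of_nonneg_left h4 (Nat.cast_nonneg _)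
    linarith
  have hfin : {z : ℂ | ‖z‖ ≤ R / 2 ∧ f z = 0}.Finite := by
    by_contra hinf
    obtain ⟨T, hT, hc⟩ := Set.Infinite.exists_subset_card_eq hinf (⌊5 * K⌋₊ + 1)
    have h1 := hmain T hT
    rw [hc] at h1
    have h2 := Nat.lt_floor_add_one (5 * K)
    push_cast at h1
    linarith
  refine ⟨hfin, ?_⟩
  rw [Set.ncard_eq_toFinset_card _ hfin]
  exact hmain _ (by rw [Set.Finite.coe_toFinset])

end Pool.Agent.H70.PL
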