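import Pool.Agent.H70.PL.Per
import Pool.Agent.H70.PL.Nex
import Pool.Agent.H70.PL.Zc

/-!
SHARP RATE, piece 2 (PLANAR), module F2: zero counts (F2), (F2').

`f2_pt`: `nsc_ex` at `0`, `net` at `u = v = 0`: `n` with `‖n‖ ≤ qn S ≤ 1`, `‖J n‖ ≥ k2 t w (nm (F n) + nm (F' n))`; `per_J`:
`‖J1 n - J n‖ ≤ 2 τ w (nm (F n) + nm (F' n)) ≤ (k2 t / 2) w (..)` (`4 τ ≤ k2 t` from `A τ ≤ kap k1 t`, `A kap ≤ k2 S0`); so
`‖J1 n‖ ≥ (k2 t w / 2) nm (F n) ≥ k1 k2 t² w² / 2 ≥ exp (-4 L) w² / 2`. (`qn ≤ 1` from `A m qn ≤ q1^m ≤ 1`.)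
`f2_J`: `zcn` for `J1` with `R = 5/2`, `B = 8 M² w²` (`per_bJ`), `K = 4 L + log (16 M²) ≤ (4 + 16 M²) L`.
`f2_e`: if `‖F1 ∧ e‖ ≤ y` on `‖u‖ ≤ 5/4` then `‖(F1 ∧ e)'(n)‖ ≤ 4 y` (Cauchy, radius 1/4), and by `frame` (unit vector `e`)
`‖J1 n‖ ≤ nm (F1 n) ‖F1' ∧ e‖ + ‖F1 ∧ e‖ nm (F1' n) ≤ 2 M w 4 y + y 4 M w = 12 M w y`; so for `y = exp (-4 L) w / (25 M)` there is
`n'`, `‖n'‖ ≤ 5/4`, with `‖F1 n' ∧ e‖ > y`; `zcn` with `R = 5/2`, `B = 2 M w`, `K = 4 L + log (50 M²) ≤ (4 + 50 M²) L`.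
-/

set_option autoImplicit false

namespace Pool.Agent.H70.PL

open Pool.H70.SF

/-- elementary consequences of the relations between the constants -/
private theorem f2_kon {M A L t τ q q1 qn k1 k2 kap S0 : ℝ} {m : ℕ} (hM : 1 ≤ M) (hA : 100 * M ≤ A)
    (hK : Kon A L t τ q q1 qn k1 k2 kap S0 m) :
    0 < t ∧ 0 < k1 ∧ 0 < k2 ∧ 0 < qn ∧ qn ≤ 1 ∧ τ ≤ k1 * t ∧ τ ≤ 1 ∧ 4 * τ ≤ k2 * t := by
  have hA1 : 100 ≤ A := by linarith
  have ht : 0 < t := lt_of_lt_of_le (Real.exp_pos _) hK.tL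
  have hk1 : 0 < k1 := lt_of_lt_of_le (Real.exp_pos _) hK.k1L
  have hk2 : 0 < k2 := lt_of_lt_of_le (Real.exp_pos _) hK.k2L
  have hqn : 0 < qn := lt_of_lt_of_le (Real.exp_pos _) hK.qnL
  have hkap : 0 < kap := lt_of_lt_of_le (Real.exp_pos _) hK.kapL
  have hL := hK.L1
  have hm : (1 : ℝ) ≤ m := by exact_mod_cast hK.m1
  have hq1 : q1 ≤ 1 := by
    by_contra h
    push Not at h
    have h1 := hK.q1q
    have h2 := hK.q1'
    have h3 : 100 * 1 * 1 ≤ A * L * q1 := by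
      have h4 : 100 * 1 ≤ A * L := mul_le_mul hA1 hL (by norm_num) (by linarith)
      exact mul_le_mul h4 h.le (by norm_num) (by linarith)
    linarith
  have hq1m : q1 ^ m ≤ 1 := pow_le_one₀ hK.q1p.le hq1
  have hqn1 : qn ≤ 1 := by
    have h1 := hK.qnq
    have h4 : 1 ≤ A * m := by nlinarith
    nlinarith
  have hkk : A * kap ≤ k2 / 4 := by
    have h1 := hK.kapS
    have h2 := hK.S0b
    nlinarith
  have hkap1 : kap ≤ 1 := by
    have h2 := hK.k2b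
    nlinarith
  have hτA : A * τ ≤ kap * (k1 * t) := by
    have := hK.τk
    linarith
  have hk1t : k1 * t ≤ 1 := mul_le_one₀ hK.k1b ht.le hK.t1
  have hk1t0 : 0 < k1 * t := mul_pos hk1 ht
  have h5 : τ ≤ A * τ := by
    have := hK.τ0
    nlinarith
  have h6 : kap * (k1 * t) ≤ k1 * t := by nlinarith
  have h7 : τ ≤ k1 * t := by linarith
  refine ⟨ht, hk1, hk2, hqn, hqn1, h7, by linarith, ?_⟩
  have h8 : kap * (k1 * t) ≤ kap * t := by
    have : k1 * t ≤ t := by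
      have := hK.k1b
      nlinarith
    nlinarith
  have h9 : kap ≤ k2 / 4 := by nlinarith
  have h10 : kap * t ≤ k2 / 4 * t := mul_le_mul_of_nonneg_right h9 ht.le
  linarith

theorem f2_pt (M A L t τ q q1 qn k1 k2 kap S0 w : ℝ) (m : ℕ) (hM : 1 ≤ M) (hA : 100 * M ≤ A)
    (hw : 0 < w) (hK : Kon A L t τ q q1 qn k1 k2 kap S0 m) (F F1 : ℂ → ℂ × ℂ)
    (hF : Sta M w t k1 k2 qn F) (hP : Per τ w F F1) :
    ∃ n : ℂ, ‖n‖ ≤ 1 ∧ Real.exp (-(4 * L)) * w ^ 2 / 2 ≤ ‖Jc F1 n‖ := by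
  obtain ⟨ht, hk1, hk2, hqn, hqn1, hτk, hτ1, hτ4⟩ := f2_kon hM hA hK
  have h0 : 0 < nm (F 0) :=
    lt_of_lt_of_le (by positivity) (hF.low 0 (by simp))
  obtain ⟨S, hS⟩ := nsc_ex hF.dif.continuous 0 h0
  obtain ⟨n, hn, hJ⟩ := hF.net 0 S (by norm_num) hS 0 (by
    rw [sub_zero, norm_zero]
    linarith [hS.1])
  rw [sub_zero] at hn
  have hn1 : ‖n‖ ≤ 1 := hn.trans (mul_le_one₀ hqn1 hS.1.le hS.2.1)
  refine ⟨n, hn1, ?_⟩
  have h1 := per_J (M := M) hw hK.τ0 hτk hF hP n (by linarith)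
  have h2 := hF.low n (by linarith)
  have h3 : 0 ≤ nm (deriv F n) := nm_nonneg _
  set X := nm (F n) + nm (deriv F n) with hX
  have hX0 : 0 ≤ X := add_nonneg (nm_nonneg _) h3
  have hXl : k1 * t * w ≤ X := by linarith
  have h4 : ‖Jc F n‖ ≤ ‖Jc F1 n‖ + ‖Jc F1 n - Jc F n‖ := by
    have := norm_sub_norm_le (Jc F n) (Jc F n - Jc F1 n)
    have h5 : Jc F n - (Jc F n - Jc F1 n) = Jc F1 n := by ring
    rw [h5, norm_sub_rev (Jc F n)] at this
    linarith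
  have h5 : 2 * τ * w * X ≤ k2 * t / 2 * w * X := by
    have h6 : 2 * τ * w ≤ k2 * t / 2 * w := mul_le_mul_of_nonneg_right (by linarith) hw.le
    exact mul_le_mul_of_nonneg_right h6 hX0
  have h6 : k2 * t * w / 2 * X ≤ ‖Jc F1 n‖ := by
    have h7 : k2 * t * w * X = k2 * t * w / 2 * X + k2 * t / 2 * w * X := by ring
    linarith
  have h7 : k2 * t * w / 2 * (k1 * t * w) ≤ k2 * t * w / 2 * X :=
    mul_le_mul_of_nonneg_left hXl (by positivity)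
  have h8 : Real.exp (-(4 * L)) ≤ k1 * k2 * (t * t) := by
    have e1 : Real.exp (-(4 * L)) =
        Real.exp (-L) * Real.exp (-L) * (Real.exp (-L) * Real.exp (-L)) := by
      rw [← Real.exp_add, ← Real.exp_add]
      congr 1
      ring
    rw [e1]
    have e0 := (Real.exp_pos (-L)).le
    exact mul_le_mul (mul_le_mul hK.k1L hK.k2L e0 hk1.le) (mul_le_mul hK.tL hK.tL e0 ht.le)
      (by positivity) (by positivity)
  calc Real.exp (-(4 * L)) * w ^ 2 / 2 ≤ k1 * k2 * (t * t) * w ^ 2 / 2 := by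
        have := mul_le_mul_of_nonneg_right h8 (sq_nonneg w)
        linarith
    _ = k2 * t * w / 2 * (k1 * t * w) := by ring
    _ ≤ _ := h7.trans h6

/-- (F2'), zeros of the Jacobian -/
theorem f2_J (M A L t τ q q1 qn k1 k2 kap S0 w : ℝ) (m : ℕ) (hM : 1 ≤ M) (hA : 100 * M ≤ A)
    (hw : 0 < w) (hK : Kon A L t τ q q1 qn k1 k2 kap S0 m) (F F1 : ℂ → ℂ × ℂ)
    (hF : Sta M w t k1 k2 qn F) (hP : Per τ w F F1) :
    {z : ℂ | ‖z‖ ≤ 5 / 4 ∧ Jc F1 z = 0}.Finite ∧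
      ({z : ℂ | ‖z‖ ≤ 5 / 4 ∧ Jc F1 z = 0}.ncard : ℝ) ≤ 300 * M ^ 2 * L := by
  obtain ⟨n, hn, hJ⟩ := f2_pt M A L t τ q q1 qn k1 k2 kap S0 w m hM hA hw hK F F1 hF hP
  obtain ⟨-, -, -, -, -, -, hτ1, -⟩ := f2_kon hM hA hK
  have hM0 : 0 < M := by linarith
  have hL := hK.L1
  have h1 := zcn (Jc F1) (dif_Jc hP.dif) (5 / 2) (8 * M ^ 2 * w ^ 2) (4 * L + Real.log (16 * M ^ 2))
    (by norm_num) (by positivity) (fun u hu => per_bJ hM hw hτ1 hF hP u hu) n (by linarith) (by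
      rw [neg_add, Real.exp_add, Real.exp_neg (Real.log _), Real.exp_log (by positivity)]
      refine le_trans (le_of_eq ?_) hJ
      field_simp
      norm_num)
  have e1 : (5 : ℝ) / 2 / 2 = 5 / 4 := by norm_num
  rw [e1] at h1
  refine ⟨h1.1, h1.2.trans ?_⟩
  have h2 : Real.log (16 * M ^ 2) ≤ 16 * M ^ 2 - 1 := Real.log_le_sub_one_of_pos (by positivity)
  have h3 : 1 ≤ M ^ 2 := one_le_pow₀ hM
  nlinarith [mul_le_mul h3 hL zero_le_one (by linarith : (0 : ℝ) ≤ M ^ 2)]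

/-- (F2'), preimages of a point -/
theorem f2_e (M A L t τ q q1 qn k1 k2 kap S0 w : ℝ) (m : ℕ) (hM : 1 ≤ M) (hA : 100 * M ≤ A)
    (hw : 0 < w) (hK : Kon A L t τ q q1 qn k1 k2 kap S0 m) (F F1 : ℂ → ℂ × ℂ)
    (hF : Sta M w t k1 k2 qn F) (hP : Per τ w F F1) (e : ℂ × ℂ) (he : nm e = 1) :
    {z : ℂ | ‖z‖ ≤ 5 / 4 ∧ wd (F1 z) e = 0}.Finite ∧
      ({z : ℂ | ‖z‖ ≤ 5 / 4 ∧ wd (F1 z) e = 0}.ncard : ℝ) ≤ 300 * M ^ 2 * L := by
  obtain ⟨n, hn, hJ⟩ := f2_pt M A L t τ q q1 qn k1 k2 kap S0 w m hM hA hw hK F F1 hF hP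
  obtain ⟨-, -, -, -, -, -, hτ1, -⟩ := f2_kon hM hA hK
  have hM0 : 0 < M := by linarith
  have hL := hK.L1
  set y := Real.exp (-(4 * L)) * w / (25 * M) with hy
  have hy0 : 0 < y := by positivity
  obtain ⟨n', hn', hy'⟩ : ∃ n' : ℂ, ‖n'‖ ≤ 5 / 4 ∧ y < ‖wd (F1 n') e‖ := by
    by_contra hno
    push Not at hno
    have hd : ‖wd (deriv F1 n) e‖ ≤ y / (1 / 4) := by
      have h1 := Complex.norm_deriv_le_of_forall_mem_sphere_norm_le (c := n) (R := 1 / 4) (C := y)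
        (f := fun x => wd (F1 x) e) (by norm_num) ((dif_wd hP.dif e).diffContOnCl) (fun z hz => by
          apply hno
          rw [mem_sphere_iff_norm] at hz
          have h2 : ‖z‖ ≤ ‖z - n‖ + ‖n‖ := by
            have := norm_add_le (z - n) n
            rwa [sub_add_cancel] at this
          linarith)
      rwa [(wd_der hP.dif e n).deriv] at h1
    have hw1 : ∀ b : ℂ × ℂ, ‖wd e b‖ = ‖wd b e‖ := by
      intro b
      have : wd e b = -wd b e := by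
        unfold wd
        ring
      rw [this, norm_neg]
    have hfr := frame (F1 n) (deriv F1 n) e he
    have hb := per_b hM hw hτ1 hF hP n (by linarith)
    have hb1 := per_b1 hM hw hτ1 hF hP n (by linarith)
    have hp : ‖pr (F1 n) e‖ ≤ 2 * M * w := by
      refine (pr_le _ _).trans ?_
      rw [he, mul_one]
      exact hb
    have hp1 : ‖pr (deriv F1 n) e‖ ≤ 4 * M * w := by
      refine (pr_le _ _).trans ?_
      rw [he, mul_one]
      exact hb1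
    have h1 : ‖Jc F1 n‖ ≤ 12 * M * w * y := by
      unfold Jc
      rw [hfr]
      refine (norm_sub_le _ _).trans ?_
      rw [norm_mul, norm_mul, hw1, hw1]
      have h3 : ‖pr (F1 n) e‖ * ‖wd (deriv F1 n) e‖ ≤ 2 * M * w * (y / (1 / 4)) :=
        mul_le_mul hp hd (norm_nonneg _) (by positivity)
      have h4 : ‖wd (F1 n) e‖ * ‖pr (deriv F1 n) e‖ ≤ y * (4 * M * w) :=
        mul_le_mul (hno n (by linarith)) hp1 (norm_nonneg _) hy0.le
      calc _ ≤ 2 * M * w * (y / (1 / 4)) + y * (4 * M * w) := add_le_add h3 h4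
        _ = 12 * M * w * y := by ring
    have h2 : 12 * M * w * y = 12 / 25 * (Real.exp (-(4 * L)) * w ^ 2) := by
      rw [hy]
      field_simp
    have h3 : 0 < Real.exp (-(4 * L)) * w ^ 2 := by positivity
    linarith
  have h1 := zcn (fun x => wd (F1 x) e) (dif_wd hP.dif e) (5 / 2) (2 * M * w)
    (4 * L + Real.log (50 * M ^ 2)) (by norm_num) (by positivity) (fun u hu => by
      refine (wd_le _ _).trans ?_
      rw [he, mul_one]
      exact per_b hM hw hτ1 hF hP u (by linarith)) n' (by linarith) (by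
      rw [neg_add, Real.exp_add, Real.exp_neg (Real.log _), Real.exp_log (by positivity)]
      refine le_trans (le_of_eq ?_) hy'.le
      rw [hy]
      field_simp
      norm_num)
  have e1 : (5 : ℝ) / 2 / 2 = 5 / 4 := by norm_num
  rw [e1] at h1
  refine ⟨h1.1, h1.2.trans ?_⟩
  have h2 : Real.log (50 * M ^ 2) ≤ 50 * M ^ 2 - 1 := Real.log_le_sub_one_of_pos (by positivity)
  have h3 : 1 ≤ M ^ 2 := one_le_pow₀ hM
  nlinarith [mul_le_mul h3 hL zero_le_one (by linarith : (0 : ℝ) ≤ M ^ 2)]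

end Pool.Agent.H70.PL
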