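import Pool.Agent.H70.PL.Pr

/-!
SHARP RATE, piece 2 (PLANAR), module CAU: Cauchy estimates and the Schwarz lemma for pairs in the euclidean norm.

By duality (`nm_dual`): for a unit vector `e` the function `x ↦ pr (F x) e` is entire with derivative `pr (F' x) e`; apply
the scalar statements (`Complex.norm_deriv_le_of_forall_mem_sphere_norm_le`, `Complex.dist_le_div_mul_dist_of_mapsTo_ball`)
to it and choose `e` with `pr a e = nm a` (`a = F' u`, or `a = F x - F u`). The Schwarz lemma is on the OPEN ball: for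
`‖x - u‖ = r` the statement is the hypothesis.
-/

set_option autoImplicit false

namespace Pool.Agent.H70.PL

open Pool.H70.SF

theorem der_fst {F : ℂ → ℂ × ℂ} (hF : Differentiable ℂ F) (x : ℂ) :
    HasDerivAt (fun x => (F x).1) (deriv F x).1 x := by
  have h := (hF x).hasDerivAt
  exact (hasFDerivAt_fst (𝕜 := ℂ) (p := F x)).comp_hasDerivAt x h

theorem der_snd {F : ℂ → ℂ × ℂ} (hF : Differentiable ℂ F) (x : ℂ) :
    HasDerivAt (fun x => (F x).2) (deriv F x).2 x := by
  have h := (hF x).hasDerivAt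
  exact (hasFDerivAt_snd (𝕜 := ℂ) (p := F x)).comp_hasDerivAt x h

theorem pr_der {F : ℂ → ℂ × ℂ} (hF : Differentiable ℂ F) (e : ℂ × ℂ) (x : ℂ) :
    HasDerivAt (fun x => pr (F x) e) (pr (deriv F x) e) x := by
  unfold pr
  exact ((der_fst hF x).mul_const _).add ((der_snd hF x).mul_const _)

theorem wd_der {F : ℂ → ℂ × ℂ} (hF : Differentiable ℂ F) (e : ℂ × ℂ) (x : ℂ) :
    HasDerivAt (fun x => wd (F x) e) (wd (deriv F x) e) x := by
  unfold wd
  exact ((der_fst hF x).mul_const _).sub ((der_snd hF x).mul_const _)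

theorem dif_der {F : ℂ → ℂ × ℂ} (hF : Differentiable ℂ F) : Differentiable ℂ (deriv F) := by
  rw [← differentiableOn_univ] at hF ⊢
  exact hF.deriv isOpen_univ

theorem dif_Jc {F : ℂ → ℂ × ℂ} (hF : Differentiable ℂ F) : Differentiable ℂ (Jc F) := by
  have h2 := dif_der hF
  intro u
  unfold Jc wd
  exact (((der_fst hF u).differentiableAt.mul (der_snd h2 u).differentiableAt).sub
    ((der_snd hF u).differentiableAt.mul (der_fst h2 u).differentiableAt))

theorem dif_wd {F : ℂ → ℂ × ℂ} (hF : Differentiable ℂ F) (e : ℂ × ℂ) :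
    Differentiable ℂ (fun x => wd (F x) e) := fun x => (wd_der hF e x).differentiableAt

theorem dif_pr {F : ℂ → ℂ × ℂ} (hF : Differentiable ℂ F) (e : ℂ × ℂ) :
    Differentiable ℂ (fun x => pr (F x) e) := fun x => (pr_der hF e x).differentiableAt

/-- Cauchy -/
theorem cauP {F : ℂ → ℂ × ℂ} (hF : Differentiable ℂ F) (u : ℂ) (r B : ℝ) (hr : 0 < r)
    (h : ∀ v, ‖v - u‖ ≤ r → nm (F v) ≤ B) : nm (deriv F u) ≤ B / r := by
  obtain ⟨e, he, hae⟩ := nm_dual (deriv F u)
  have h1 : ‖deriv (fun x => pr (F x) e) u‖ ≤ B / r := by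
    apply Complex.norm_deriv_le_of_forall_mem_sphere_norm_le hr
    · exact (dif_pr hF e).diffContOnCl
    · intro z hz
      rw [mem_sphere_iff_norm] at hz
      calc ‖pr (F z) e‖ ≤ nm (F z) * nm e := pr_le _ _
        _ = nm (F z) := by rw [he, mul_one]
        _ ≤ B := h z hz.le
  rw [(pr_der hF e u).deriv, hae, Complex.norm_real, Real.norm_eq_abs,
    abs_of_nonneg (nm_nonneg _)] at h1
  exact h1

/-- Cauchy for differences -/
theorem cauD {F : ℂ → ℂ × ℂ} (hF : Differentiable ℂ F) (c : ℂ × ℂ) (u : ℂ) (r B : ℝ) (hr : 0 < r)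
    (h : ∀ v, ‖v - u‖ ≤ r → nm (F v - c) ≤ B) : nm (deriv F u) ≤ B / r := by
  have h1 := cauP (F := fun v => F v - c) (hF.sub_const c) u r B hr h
  have h2 : deriv (fun v => F v - c) u = deriv F u := deriv_sub_const c
  rw [h2] at h1
  exact h1

/-- Schwarz -/
theorem schP {F : ℂ → ℂ × ℂ} (hF : Differentiable ℂ F) (u : ℂ) (r B : ℝ) (hr : 0 < r)
    (h : ∀ v, ‖v - u‖ ≤ r → nm (F v - F u) ≤ B) (x : ℂ) (hx : ‖x - u‖ ≤ r) :
    nm (F x - F u) ≤ ‖x - u‖ / r * B := by
  rcases hx.lt_or_eq with hlt | heq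
  swap
  · rw [heq, div_self hr.ne', one_mul]
    exact h x hx
  obtain ⟨e, he, hae⟩ := nm_dual (F x - F u)
  have hm : Set.MapsTo (fun x => pr (F x) e) (Metric.ball u r)
      (Metric.closedBall ((fun x => pr (F x) e) u) B) := by
    intro v hv
    rw [mem_ball_iff_norm] at hv
    rw [mem_closedBall_iff_norm]
    simp only
    rw [← pr_sub]
    calc ‖pr (F v - F u) e‖ ≤ nm (F v - F u) * nm e := pr_le _ _
      _ = nm (F v - F u) := by rw [he, mul_one]
      _ ≤ B := h v hv.le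
  have h2 := Complex.dist_le_div_mul_dist_of_mapsTo_ball (z := x)
    (dif_pr hF e).differentiableOn hm (by rw [mem_ball_iff_norm]; exact hlt)
  rw [dist_eq_norm, dist_eq_norm] at h2
  rw [← pr_sub, hae, Complex.norm_real, Real.norm_eq_abs, abs_of_nonneg (nm_nonneg _)] at h2
  calc nm (F x - F u) ≤ B / r * ‖x - u‖ := h2
    _ = ‖x - u‖ / r * B := by ring

/-- mean value inequality -/
theorem mvP {F : ℂ → ℂ × ℂ} (hF : Differentiable ℂ F) (c : ℂ) (r B : ℝ)
    (h : ∀ v, ‖v - c‖ ≤ r → nm (deriv F v) ≤ B) (x y : ℂ) (hx : ‖x - c‖ ≤ r) (hy : ‖y - c‖ ≤ r) :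
    nm (F x - F y) ≤ B * ‖x - y‖ := by
  obtain ⟨e, he, hae⟩ := nm_dual (F x - F y)
  have h1 := Convex.norm_image_sub_le_of_norm_deriv_le (𝕜 := ℂ) (f := fun x => pr (F x) e)
    (s := Metric.closedBall c r) (C := B) (x := y) (y := x)
    (fun v _ => (dif_pr hF e) v)
    (fun v hv => by
      rw [mem_closedBall_iff_norm] at hv
      rw [(pr_der hF e v).deriv]
      calc ‖pr (deriv F v) e‖ ≤ nm (deriv F v) * nm e := pr_le _ _
        _ = nm (deriv F v) := by rw [he, mul_one]
        _ ≤ B := h v hv)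
    (convex_closedBall c r) (by rw [mem_closedBall_iff_norm]; exact hy)
    (by rw [mem_closedBall_iff_norm]; exact hx)
  rw [← pr_sub, hae, Complex.norm_real, Real.norm_eq_abs, abs_of_nonneg (nm_nonneg _)] at h1
  exact h1

end Pool.Agent.H70.PL
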