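import Pool.Agent.H70.PL.F1p
import Pool.Agent.H70.PL.Nex
import Pool.Agent.H44.DN.SPK

/-!
SHARP RATE, piece 2 (PLANAR), module GOOD: points far from the zeros of the static Jacobian (2e).

`good_J`: `‖v‖ ≤ 5/4` and `ball v (q S') ⊆ ball u R` (`q S' ≤ q ≤ R/2`), so `f1p` applies at `v`.
`good_low`: `nsc_ex` at `v`, `good_J`, `S' ≤ 1`, `nm (F v) ≥ k1 t w`: `‖J1 v‖ ≥ (kap / 2) k1 t² w² ≥ exp (-4 L) w² / 2 > 0`.
`good_der`: `J1` has no zero in `ball v (R/4) ⊆ ball u (R/2)` and `‖J1‖ < X = 9 M² w²` there (`per_bJ`); the lemma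
`Pool.Agent.H44.DN.spk` (check the namespace) gives
`‖J1' v‖ R/4 ≤ 2 ‖J1 v‖ log (X / ‖J1 v‖)`, `log (X / ‖J1 v‖) ≤ 4 L + log (18 M²) ≤ (4 + 18 M²) L ≤ 22 M² L`.
-/

set_option autoImplicit false

namespace Pool.Agent.H70.PL

open Pool.H70.SF

private theorem good_pos {A L t τ q q1 qn k1 k2 kap S0 : ℝ} {m : ℕ}
    (hK : Kon A L t τ q q1 qn k1 k2 kap S0 m) (hA : 100 ≤ A) :
    0 < t ∧ 0 < k1 ∧ 0 < k2 ∧ 0 < kap ∧ 0 < q ∧ τ ≤ 1 := by
  have ht := (Real.exp_pos _).trans_le hK.tL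
  have hk1 := (Real.exp_pos _).trans_le hK.k1L
  have hk2 := (Real.exp_pos _).trans_le hK.k2L
  have hkap := (Real.exp_pos _).trans_le hK.kapL
  refine ⟨ht, hk1, hk2, hkap, ?_, ?_⟩
  · have h1 := hK.q1q
    have h2 := hK.q1p
    have h3 := hK.L1
    have h4 : 0 < A * L * q1 := by
      have : 0 < A := by linarith
      have : 0 < L := by linarith
      positivity
    linarith
  · have h1 := hK.τk
    have h2 := hK.τ0
    have h3 : kap ≤ 1 := by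
      have h4 := hK.kapS
      have h5 : k2 * S0 ≤ 1 := by
        have h6 := hK.k2b
        have h7 := hK.S0b
        have h8 := hK.S0p
        nlinarith
      nlinarith
    have h10 : kap * k1 * t ≤ 1 := by
      have h11 : kap * k1 ≤ 1 := by
        have := hK.k1b
        nlinarith
      have h12 : 0 ≤ kap * k1 := (mul_pos hkap hk1).le
      have := hK.t1
      nlinarith
    nlinarith

theorem good_J (M A L t τ q q1 qn k1 k2 kap S0 w : ℝ) (m : ℕ) (hM : 1 ≤ M) (hA : 100 * M ≤ A)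
    (hw : 0 < w) (hK : Kon A L t τ q q1 qn k1 k2 kap S0 m) (F F1 : ℂ → ℂ × ℂ)
    (hF : Sta M w t k1 k2 qn F) (hP : Per τ w F F1) (u : ℂ) (hu : ‖u‖ ≤ 1) (R : ℝ)
    (hqR : q ≤ R / 2) (hR : R ≤ 1 / 4) (hz : ∀ z, ‖z - u‖ < R → Jc F z ≠ 0) (v : ℂ)
    (hv : ‖v - u‖ ≤ R / 2) (S : ℝ) (hS : Nsc F v S) :
    kap / 2 * t * w * nm (F v) / S ≤ ‖Jc F1 v‖ := by
  obtain ⟨ht, hk1, hk2, hkap, hq, hτ⟩ := good_pos hK (by linarith)
  have hv2 : ‖v‖ ≤ 5 / 4 := by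
    have h1 := norm_add_le (v - u) u
    rw [sub_add_cancel] at h1
    linarith
  refine f1p M A L t τ q q1 qn k1 k2 kap S0 w m hM hA hw hK F F1 hF hP v hv2 S hS fun z hz' => ?_
  apply hz
  have h1 : q * S ≤ q := by
    have := hS.2.1
    nlinarith
  have h2 := norm_add_le (z - v) (v - u)
  rw [sub_add_sub_cancel] at h2
  linarith

theorem good_low (M A L t τ q q1 qn k1 k2 kap S0 w : ℝ) (m : ℕ) (hM : 1 ≤ M) (hA : 100 * M ≤ A)
    (hw : 0 < w) (hK : Kon A L t τ q q1 qn k1 k2 kap S0 m) (F F1 : ℂ → ℂ × ℂ)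
    (hF : Sta M w t k1 k2 qn F) (hP : Per τ w F F1) (u : ℂ) (hu : ‖u‖ ≤ 1) (R : ℝ)
    (hqR : q ≤ R / 2) (hR : R ≤ 1 / 4) (hz : ∀ z, ‖z - u‖ < R → Jc F z ≠ 0) (v : ℂ)
    (hv : ‖v - u‖ ≤ R / 2) : Real.exp (-(4 * L)) * w ^ 2 / 2 ≤ ‖Jc F1 v‖ := by
  obtain ⟨ht, hk1, hk2, hkap, hq, hτ⟩ := good_pos hK (by linarith)
  have hv2 : ‖v‖ ≤ 2 := by
    have h1 := norm_add_le (v - u) u
    rw [sub_add_cancel] at h1
    linarith
  have hlow := hF.low v hv2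
  have hktw : 0 < k1 * t * w := mul_pos (mul_pos hk1 ht) hw
  obtain ⟨S, hS⟩ := nsc_ex hF.dif.continuous v (hktw.trans_le hlow)
  have h1 := good_J M A L t τ q q1 qn k1 k2 kap S0 w m hM hA hw hK F F1 hF hP u hu R hqR hR hz v hv S hS
  refine le_trans ?_ h1
  have hS0 := hS.1
  have hS1 := hS.2.1
  rw [le_div_iff₀ hS0]
  have hE : 0 < Real.exp (-L) := Real.exp_pos _
  have hE4 : Real.exp (-(4 * L)) = Real.exp (-L) * Real.exp (-L) * (Real.exp (-L) * Real.exp (-L)) := by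
    rw [← Real.exp_add, ← Real.exp_add]
    congr 1
    ring
  have h2 : Real.exp (-L) * Real.exp (-L) ≤ kap * k1 := mul_le_mul hK.kapL hK.k1L hE.le hkap.le
  have h3 : Real.exp (-L) * Real.exp (-L) ≤ t * t := mul_le_mul hK.tL hK.tL hE.le ht.le
  have h4 : Real.exp (-(4 * L)) ≤ kap * k1 * (t * t) := by
    rw [hE4]
    exact mul_le_mul h2 h3 (by positivity) (by positivity)
  have h5 : 0 ≤ Real.exp (-(4 * L)) * w ^ 2 / 2 := by positivity
  calc Real.exp (-(4 * L)) * w ^ 2 / 2 * S ≤ Real.exp (-(4 * L)) * w ^ 2 / 2 * 1 :=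
        mul_le_mul_of_nonneg_left hS1 h5
    _ = Real.exp (-(4 * L)) * (w ^ 2 / 2) := by ring
    _ ≤ kap * k1 * (t * t) * (w ^ 2 / 2) := mul_le_mul_of_nonneg_right h4 (by positivity)
    _ = kap / 2 * t * w * (k1 * t * w) := by ring
    _ ≤ kap / 2 * t * w * nm (F v) := mul_le_mul_of_nonneg_left hlow (by positivity)

theorem good_der (M A L t τ q q1 qn k1 k2 kap S0 w : ℝ) (m : ℕ) (hM : 1 ≤ M) (hA : 100 * M ≤ A)
    (hw : 0 < w) (hK : Kon A L t τ q q1 qn k1 k2 kap S0 m) (F F1 : ℂ → ℂ × ℂ)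
    (hF : Sta M w t k1 k2 qn F) (hP : Per τ w F F1) (u : ℂ) (hu : ‖u‖ ≤ 1) (R : ℝ)
    (hqR : q ≤ R / 2) (hR : R ≤ 1 / 4) (hz : ∀ z, ‖z - u‖ < R → Jc F z ≠ 0) (v : ℂ)
    (hv : ‖v - u‖ ≤ R / 4) : ‖deriv (Jc F1) v‖ ≤ 200 * M ^ 2 * L / R * ‖Jc F1 v‖ := by
  obtain ⟨ht, hk1, hk2, hkap, hq, hτ⟩ := good_pos hK (by linarith)
  have hR0 : 0 < R := by linarith
  have hL := hK.L1
  have hlow := good_low M A L t τ q q1 qn k1 k2 kap S0 w m hM hA hw hK F F1 hF hP u hu R hqR hR hz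
  have hbl : ∀ x, ‖x - v‖ < R / 4 → ‖x - u‖ ≤ R / 2 := by
    intro x hx
    have h2 := norm_add_le (x - v) (v - u)
    rw [sub_add_sub_cancel] at h2
    linarith
  have hM2 : 1 ≤ M ^ 2 := one_le_pow₀ hM
  have hw2 : 0 < w ^ 2 := by positivity
  have hlo : 0 < Real.exp (-(4 * L)) * w ^ 2 / 2 := by positivity
  have h1 := Pool.Agent.H44.DN.spk (F := Jc F1) (z := v) (σ := R / 4) (X := 9 * M ^ 2 * w ^ 2)
    (by linarith) (dif_Jc hP.dif).differentiableOn (by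
      intro x hx
      rw [mem_ball_iff_norm] at hx
      have h2 := hbl x hx
      have h3 := hlow x h2
      refine ⟨norm_pos_iff.1 (hlo.trans_le h3), ?_⟩
      have h4 : ‖x‖ ≤ 5 / 2 := by
        have h1 := norm_add_le (x - u) u
        rw [sub_add_cancel] at h1
        linarith
      have h5 := per_bJ hM hw hτ hF hP x h4
      have h6 : 0 < M ^ 2 * w ^ 2 := by positivity
      linarith)
  have h2 := hlow v (by linarith)
  obtain ⟨J, hJ⟩ : ∃ J : ℝ, J = ‖Jc F1 v‖ := ⟨_, rfl⟩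
  rw [← hJ] at h1 h2 ⊢
  have hJ0 : 0 < J := hlo.trans_le h2
  have h3 : Real.log (9 * M ^ 2 * w ^ 2 / J) ≤ 22 * M ^ 2 * L := by
    have h4 : 9 * M ^ 2 * w ^ 2 / J ≤ 18 * M ^ 2 * Real.exp (4 * L) := by
      rw [div_le_iff₀ hJ0]
      calc 9 * M ^ 2 * w ^ 2 = 18 * M ^ 2 * Real.exp (4 * L) * (Real.exp (-(4 * L)) * w ^ 2 / 2) := by
            rw [Real.exp_neg]
            have := Real.exp_ne_zero (4 * L)
            field_simp
            ring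
        _ ≤ 18 * M ^ 2 * Real.exp (4 * L) * J := mul_le_mul_of_nonneg_left h2 (by positivity)
    have h5 : 0 < 9 * M ^ 2 * w ^ 2 / J := by positivity
    have h6 := Real.log_le_log h5 h4
    have h7 : Real.log (18 * M ^ 2 * Real.exp (4 * L)) = Real.log (18 * M ^ 2) + 4 * L := by
      rw [Real.log_mul (by positivity) (Real.exp_ne_zero _), Real.log_exp]
    have h8 : Real.log (18 * M ^ 2) ≤ 18 * M ^ 2 - 1 := Real.log_le_sub_one_of_pos (by positivity)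
    rw [h7] at h6
    nlinarith
  have h4 : ‖deriv (Jc F1) v‖ * (R / 4) ≤ 2 * J * (22 * M ^ 2 * L) :=
    h1.trans (mul_le_mul_of_nonneg_left h3 (by positivity))
  have h5 : 200 * M ^ 2 * L / R * J = 200 * M ^ 2 * L * J / R := by ring
  rw [h5, le_div_iff₀ hR0]
  have h6 : 0 ≤ M ^ 2 * L * J := by positivity
  nlinarith

end Pool.Agent.H70.PL
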