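import Pool.Agent.H70.PL.Def

/-!
SHARP RATE, piece 2 (PLANAR), module PR: algebra of pairs: `nm`, `pr`, `wd`.

Everything is elementary: `nm` is the euclidean norm, `lag` is the identity of Lagrange, `frame` says that `wd a b` can be
computed in the orthonormal frame `e, e_perp`.
-/

set_option autoImplicit false

namespace Pool.Agent.H70.PL

open Pool.H70.SF ComplexConjugate

theorem nm_nonneg (a : ℂ × ℂ) : 0 ≤ nm a := Real.sqrt_nonneg _

theorem n2_nonneg' (a : ℂ × ℂ) : 0 ≤ n2 a := by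
  unfold n2; positivity

theorem nm_sq (a : ℂ × ℂ) : nm a ^ 2 = ‖a.1‖ ^ 2 + ‖a.2‖ ^ 2 := by
  unfold nm
  rw [Real.sq_sqrt (n2_nonneg' a)]
  rfl

theorem nm_smul (c : ℂ) (a : ℂ × ℂ) : nm (c • a) = ‖c‖ * nm a := by
  have h1 : nm (c • a) ^ 2 = (‖c‖ * nm a) ^ 2 := by
    rw [nm_sq, mul_pow, nm_sq]
    simp only [Prod.smul_fst, Prod.smul_snd, smul_eq_mul, norm_mul]
    ring
  exact (pow_left_inj₀ (nm_nonneg _) (mul_nonneg (norm_nonneg _) (nm_nonneg _)) two_ne_zero).1 h1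

theorem nm_fst (a : ℂ × ℂ) : ‖a.1‖ ≤ nm a := by
  apply Real.le_sqrt_of_sq_le
  unfold n2
  nlinarith [sq_nonneg ‖a.2‖]

theorem nm_snd (a : ℂ × ℂ) : ‖a.2‖ ≤ nm a := by
  apply Real.le_sqrt_of_sq_le
  unfold n2
  nlinarith [sq_nonneg ‖a.1‖]

theorem nm_eq_zero (a : ℂ × ℂ) : nm a = 0 ↔ a = 0 := by
  constructor
  · intro h
    have h1 := nm_fst a
    have h2 := nm_snd a
    rw [h] at h1 h2
    exact Prod.ext (norm_le_zero_iff.1 h1) (norm_le_zero_iff.1 h2)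
  · intro h
    rw [h]
    simp [nm, n2]

private theorem nsq (z : ℂ) : ((‖z‖ ^ 2 : ℝ) : ℂ) = z * conj z := by
  rw [Complex.mul_conj, Complex.normSq_eq_norm_sq]

/-- Lagrange -/
theorem lag (a b : ℂ × ℂ) : nm a ^ 2 * nm b ^ 2 = ‖wd a b‖ ^ 2 + ‖pr a b‖ ^ 2 := by
  rw [nm_sq, nm_sq]
  have h : (((‖a.1‖ ^ 2 + ‖a.2‖ ^ 2) * (‖b.1‖ ^ 2 + ‖b.2‖ ^ 2) : ℝ) : ℂ)
      = ((‖wd a b‖ ^ 2 + ‖pr a b‖ ^ 2 : ℝ) : ℂ) := by
    rw [Complex.ofReal_mul, Complex.ofReal_add, Complex.ofReal_add, Complex.ofReal_add, nsq, nsq,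
      nsq, nsq, nsq, nsq]
    simp only [wd, pr, map_sub, map_add, map_mul, Complex.conj_conj]
    ring
  exact_mod_cast h

theorem wd_le (a b : ℂ × ℂ) : ‖wd a b‖ ≤ nm a * nm b := by
  apply le_of_sq_le_sq _ (mul_nonneg (nm_nonneg _) (nm_nonneg _))
  rw [mul_pow, lag]
  nlinarith [sq_nonneg ‖pr a b‖]

theorem pr_le (a b : ℂ × ℂ) : ‖pr a b‖ ≤ nm a * nm b := by
  apply le_of_sq_le_sq _ (mul_nonneg (nm_nonneg _) (nm_nonneg _))
  rw [mul_pow, lag]
  nlinarith [sq_nonneg ‖wd a b‖]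

/-- duality: a unit vector that computes the norm -/
theorem nm_dual (a : ℂ × ℂ) : ∃ e, nm e = 1 ∧ pr a e = (nm a : ℂ) := by
  by_cases h : a = 0
  · refine ⟨(1, 0), ?_, ?_⟩
    · simp [nm, n2]
    · rw [(nm_eq_zero a).2 h, h]
      simp [pr]
  · have h0 : nm a ≠ 0 := fun h' => h ((nm_eq_zero a).1 h')
    have h0c : (nm a : ℂ) ≠ 0 := by exact_mod_cast h0
    refine ⟨((nm a)⁻¹ : ℂ) • a, ?_, ?_⟩
    · rw [nm_smul, norm_inv, Complex.norm_real, Real.norm_of_nonneg (nm_nonneg a)]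
      exact inv_mul_cancel₀ h0
    · have h1 : pr a (((nm a)⁻¹ : ℂ) • a) = ((nm a)⁻¹ : ℂ) * ((nm a ^ 2 : ℝ) : ℂ) := by
        rw [nm_sq, Complex.ofReal_add, nsq, nsq]
        simp only [pr, Prod.smul_fst, Prod.smul_snd, smul_eq_mul, map_mul, map_inv₀,
          Complex.conj_ofReal]
        ring
      rw [h1]
      push_cast
      field_simp

theorem pr_sub (a b e : ℂ × ℂ) : pr (a - b) e = pr a e - pr b e := by
  simp only [pr, Prod.fst_sub, Prod.snd_sub]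
  ring

theorem pr_add (a b e : ℂ × ℂ) : pr (a + b) e = pr a e + pr b e := by
  simp only [pr, Prod.fst_add, Prod.snd_add]
  ring

theorem wd_sub (a b e : ℂ × ℂ) : wd (a - b) e = wd a e - wd b e := by
  simp only [wd, Prod.fst_sub, Prod.snd_sub]
  ring

theorem nm_add (a b : ℂ × ℂ) : nm (a + b) ≤ nm a + nm b := by
  obtain ⟨e, he, h⟩ := nm_dual (a + b)
  have h1 : nm (a + b) = ‖pr (a + b) e‖ := by
    rw [h, Complex.norm_real, Real.norm_of_nonneg (nm_nonneg _)]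
  rw [h1, pr_add]
  calc ‖pr a e + pr b e‖ ≤ ‖pr a e‖ + ‖pr b e‖ := norm_add_le _ _
    _ ≤ nm a * nm e + nm b * nm e := add_le_add (pr_le a e) (pr_le b e)
    _ = nm a + nm b := by rw [he]; ring

theorem nm_neg (a : ℂ × ℂ) : nm (-a) = nm a := by
  simp [nm, n2]

theorem nm_sub (a b : ℂ × ℂ) : nm (a - b) ≤ nm a + nm b := by
  have h := nm_add a (-b)
  rw [nm_neg, ← sub_eq_add_neg] at h
  exact h

theorem nm_sub_comm (a b : ℂ × ℂ) : nm (a - b) = nm (b - a) := by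
  rw [← nm_neg, neg_sub]

theorem nm_tri (a b c : ℂ × ℂ) : nm (a - c) ≤ nm (a - b) + nm (b - c) := by
  have h := nm_add (a - b) (b - c)
  rwa [sub_add_sub_cancel] at h

/-- reverse triangle inequality -/
theorem nm_rev (a b : ℂ × ℂ) : nm a ≤ nm b + nm (a - b) := by
  have h := nm_add b (a - b)
  rwa [add_sub_cancel] at h

theorem nm_cont : Continuous nm := by
  unfold nm n2
  fun_prop

/-- the wedge in the frame of a unit vector -/
theorem frame (a b e : ℂ × ℂ) (he : nm e = 1) : wd a b = pr a e * wd e b - wd e a * pr b e := by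
  have h1 : e.1 * conj e.1 + e.2 * conj e.2 = 1 := by
    rw [← nsq, ← nsq, ← Complex.ofReal_add, ← nm_sq, he]
    norm_num
  have h2 : pr a e * wd e b - wd e a * pr b e = (e.1 * conj e.1 + e.2 * conj e.2) * wd a b := by
    simp only [wd, pr]
    ring
  rw [h2, h1, one_mul]

end Pool.Agent.H70.PL
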