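import Pool.Agent.H70.PL.Sca

/-!
SHARP RATE, piece 2 (PLANAR), module NCM2 (2a'): natural scales at two points.

Suppose `S' > 8 (S + ‖v - u‖)`. Then `S < 1`, so there is `v0` with `‖v0 - u‖ ≤ S`, `nm (F v0 - F u) = nm (F u) / 2`; both `v0` and
`u` are in the disc of radius `S'/8` around `v`, where `F` changes by at most `nm (F v) / 16`: contradiction.
-/

set_option autoImplicit false

namespace Pool.Agent.H70.PL

open Pool.H70.SF

theorem nsc_cmp2 {F : ℂ → ℂ × ℂ} (hF : Differentiable ℂ F) {u v : ℂ} {S S' : ℝ} (h : Nsc F u S)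
    (h' : Nsc F v S') (hu : 0 < nm (F u)) : S' ≤ 8 * (S + ‖v - u‖) := by
  by_contra hcon
  push Not at hcon
  have hS0 : 0 < S := h.1
  have hS'0 : 0 < S' := h'.1
  have hS'1 : S' ≤ 1 := h'.2.1
  have hd : 0 ≤ ‖v - u‖ := norm_nonneg _
  have hS1 : S ≠ 1 := by
    intro hS
    rw [hS] at hcon
    linarith
  obtain ⟨v0, hv0, he⟩ := h.2.2.2.resolve_left hS1
  have h1 : ‖v0 - v‖ ≤ S + ‖v - u‖ := by
    calc ‖v0 - v‖ = ‖(v0 - u) - (v - u)‖ := by ring_nf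
      _ ≤ ‖v0 - u‖ + ‖v - u‖ := norm_sub_le _ _
      _ ≤ S + ‖v - u‖ := by linarith
  have h1' : ‖v0 - v‖ / S' ≤ 1 / 8 := by
    rw [div_le_iff₀ hS'0]; linarith
  have h2 : ‖u - v‖ / S' ≤ 1 / 8 := by
    rw [div_le_iff₀ hS'0, norm_sub_rev]; linarith
  have hb : 0 ≤ nm (F v) := nm_nonneg _
  have e1 := nsc_sch hF h' v0 (by linarith)
  have e2 := nsc_sch hF h' u (by rw [norm_sub_rev]; linarith)
  have e1' : nm (F v0 - F v) ≤ 1 / 8 * (nm (F v) / 2) :=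
    e1.trans (mul_le_mul_of_nonneg_right h1' (by linarith))
  have e2' : nm (F u - F v) ≤ 1 / 8 * (nm (F v) / 2) :=
    e2.trans (mul_le_mul_of_nonneg_right h2 (by linarith))
  have e3 : nm (F v0 - F u) ≤ nm (F v0 - F v) + nm (F v - F u) := nm_tri _ _ _
  have e4 : nm (F v) ≤ nm (F u) + nm (F v - F u) := nm_rev _ _
  rw [nm_sub_comm (F v) (F u)] at e3 e4
  rw [he] at e3
  linarith

end Pool.Agent.H70.PL
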