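import Mathlib

/-!
SHARP RATE, piece 2 (PLANAR), module TAY: a scalar function that is small on a small disc is not large on a moderate disc
(Mathlib only).

Taylor series at `u`: `ψ (u + x) = ∑ a_k x^k` (`Complex.hasSum_taylorSeries_on_ball`), Cauchy
(`Complex.norm_iteratedDeriv_le_of_forall_mem_sphere_norm_le` or `norm_cauchyPowerSeries_le`): `‖a_k‖ ≤ B` (radius 1) and
`‖a_k‖ ≤ y / ρ^k`. For `‖x‖ ≤ S`: the terms `k < m` are at most `y (S/ρ)^k ≤ y (S/ρ)^m`, the others at most `B S^k`, sum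
at most `B S^m / (1 - S) ≤ 2 B S^m`.
-/

set_option autoImplicit false

namespace Pool.Agent.H70.PL

theorem tay (ψ : ℂ → ℂ) (hψ : Differentiable ℂ ψ) (u : ℂ) (B y ρ S : ℝ) (m : ℕ) (hρ : 0 < ρ)
    (hρS : ρ ≤ S) (hS : S ≤ 1 / 2) (hB : ∀ x, ‖x - u‖ ≤ 1 → ‖ψ x‖ ≤ B)
    (hy : ∀ x, ‖x - u‖ ≤ ρ → ‖ψ x‖ ≤ y) (x : ℂ) (hx : ‖x - u‖ ≤ S) :
    ‖ψ x‖ ≤ m * y * (S / ρ) ^ m + 2 * B * S ^ m := by
  have hS0 : 0 < S := hρ.trans_le hρS
  have hB0 : 0 ≤ B := (norm_nonneg _).trans (hB u (by simp))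
  have hy0 : 0 ≤ y := (norm_nonneg _).trans (hy u (by simp [hρ.le]))
  have hsum := Complex.hasSum_taylorSeries_of_entire hψ u x
  -- Cauchy's estimate
  have hC : ∀ (R C : ℝ), 0 < R → (∀ z, ‖z - u‖ ≤ R → ‖ψ z‖ ≤ C) → ∀ k : ℕ,
      ‖((k.factorial : ℂ))⁻¹ • (x - u) ^ k • iteratedDeriv k ψ u‖ ≤ C * (S / R) ^ k := by
    intro R C hR hCb k
    have h1 := Complex.norm_iteratedDeriv_le_of_forall_mem_sphere_norm_le k hR
      (hψ.diffContOnCl (s := Metric.ball u R)) (C := C) (fun z hz => hCb z (by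
        rw [← dist_eq_norm]
        exact (Metric.mem_sphere.1 hz).le))
    have hC0 : 0 ≤ C := (norm_nonneg _).trans (hCb u (by simp [hR.le]))
    have hk : (0 : ℝ) < k.factorial := by exact_mod_cast k.factorial_pos
    rw [norm_smul, norm_smul, norm_inv, norm_pow, Complex.norm_natCast]
    have h2 : ‖x - u‖ ^ k ≤ S ^ k := pow_le_pow_left₀ (norm_nonneg _) hx k
    calc ((k.factorial : ℝ))⁻¹ * (‖x - u‖ ^ k * ‖iteratedDeriv k ψ u‖)
        ≤ ((k.factorial : ℝ))⁻¹ * (S ^ k * (k.factorial * C / R ^ k)) := by gcongr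
      _ = C * (S / R) ^ k := by
          rw [div_pow]
          field_simp
  obtain ⟨g, hg⟩ : ∃ g : ℕ → ℝ, g = fun k => if k < m then y * (S / ρ) ^ m else B * S ^ k :=
    ⟨_, rfl⟩
  have hone : 1 ≤ S / ρ := by rwa [le_div_iff₀ hρ, one_mul]
  have hbd : ∀ k, ‖((k.factorial : ℂ))⁻¹ • (x - u) ^ k • iteratedDeriv k ψ u‖ ≤ g k := by
    intro k
    rw [hg]
    by_cases hk : k < m
    · simp only [if_pos hk]
      refine (hC ρ y hρ hy k).trans ?_
      exact mul_le_mul_of_nonneg_left (pow_le_pow_right₀ hone hk.le) hy0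
    · simp only [if_neg hk]
      have h1 := hC 1 B one_pos hB k
      rwa [div_one] at h1
  have hsg : HasSum g (m * y * (S / ρ) ^ m + B * S ^ m * (1 - S)⁻¹) := by
    rw [← hasSum_nat_add_iff' m]
    have h1 : ∑ i ∈ Finset.range m, g i = m * y * (S / ρ) ^ m := by
      rw [Finset.sum_congr rfl (g := fun _ => y * (S / ρ) ^ m) (fun i hi => by
        rw [hg]
        simp only [if_pos (Finset.mem_range.1 hi)])]
      rw [Finset.sum_const, Finset.card_range, nsmul_eq_mul]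
      ring
    rw [h1, add_sub_cancel_left]
    have h2 : (fun n => g (n + m)) = fun n => B * S ^ m * S ^ n := by
      funext n
      rw [hg]
      simp only [if_neg (show ¬ n + m < m by omega)]
      rw [pow_add]
      ring
    rw [h2]
    exact (hasSum_geometric_of_lt_one hS0.le (by linarith)).mul_left _
  refine (hsum.norm_le_of_bounded hsg hbd).trans ?_
  have h3 : (1 - S)⁻¹ ≤ 2 := by
    rw [inv_le_comm₀ (by linarith) (by norm_num)]
    norm_num
    linarith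
  have h4 : B * S ^ m * (1 - S)⁻¹ ≤ B * S ^ m * 2 :=
    mul_le_mul_of_nonneg_left h3 (by positivity)
  linarith

end Pool.Agent.H70.PL
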