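import Pool.Agent.H70.PL.Sca
import Pool.Agent.H70.PL.Tay

/-!
SHARP RATE, piece 2 (PLANAR), module BIG: at a small natural scale the derivative is large somewhere near `u` (case B of (F1)).

Let `a = nm (F u)`. As `S ≤ 1/2 < 1` there is `v0`, `‖v0 - u‖ ≤ S`, with `nm (F v0 - F u) = a/2`. Let `e` be a unit vector with
`pr (F v0 - F u) e = a/2` (`nm_dual`), `φ x = pr (F x) e` and `ψ = φ'`, `ψ x = pr (F' x) e` (`pr_der`), `‖ψ x‖ ≤ nm (F' x)`
(`pr_le`). For `‖x - u‖ ≤ 1`: `‖x‖ ≤ 9/4`, so `nm (F' x) ≤ M w` (`cauP`, radius 1). Suppose `nm (F' v) < y` for all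
`‖v - u‖ ≤ q1 S`, with `y = q1^m a / (4 m S)`. `tay` with `ρ = q1 S`: `‖ψ x‖ ≤ m y q1^(-m) + 2 M w S^m = a/(4S) + 2 M w S^m` for
`‖x - u‖ ≤ S`; mean value theorem on the convex ball:
`a/2 = ‖φ v0 - φ u‖ ≤ S (a/(4S) + 2 M w S^m) = a/4 + 2 M w S^(m+1) ≤ a/4 + a/8 < a/2`.
-/

set_option autoImplicit false

namespace Pool.Agent.H70.PL

open Pool.H70.SF

theorem big {F : ℂ → ℂ × ℂ} (hF : Differentiable ℂ F) (M w : ℝ)
    (hM : ∀ u, ‖u‖ ≤ 4 → nm (F u) ≤ M * w) (u : ℂ) (hu : ‖u‖ ≤ 5 / 4) (hpos : 0 < nm (F u)) (S : ℝ)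
    (h : Nsc F u S) (hS : S ≤ 1 / 2) (q1 : ℝ) (hq0 : 0 < q1) (hq1 : q1 ≤ 1) (m : ℕ) (hm : 1 ≤ m)
    (ht : 16 * M * w * S ^ (m + 1) ≤ nm (F u)) :
    ∃ v, ‖v - u‖ ≤ q1 * S ∧ q1 ^ m * nm (F u) / (4 * m * S) ≤ nm (deriv F v) := by
  obtain ⟨hS0, hS1, hin, hor⟩ := h
  obtain ⟨v0, hv0, hv0e⟩ : ∃ v, ‖v - u‖ ≤ S ∧ nm (F v - F u) = nm (F u) / 2 := by
    rcases hor with h1 | h1
    · exfalso
      linarith
    · exact h1
  by_contra hcon
  push Not at hcon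
  have hMw : 0 ≤ M * w := (nm_nonneg _).trans (hM 0 (by rw [norm_zero]; norm_num))
  obtain ⟨a, ha⟩ : ∃ a : ℝ, a = nm (F u) := ⟨_, rfl⟩
  obtain ⟨y, hy⟩ : ∃ y : ℝ, y = q1 ^ m * nm (F u) / (4 * m * S) := ⟨_, rfl⟩
  obtain ⟨e, he, hpe⟩ := nm_dual (F v0 - F u)
  have hB : ∀ x, ‖x - u‖ ≤ 1 → ‖pr (deriv F x) e‖ ≤ M * w := by
    intro x hx
    have hx2 : ‖x‖ ≤ 9 / 4 := by
      have h1 := norm_add_le (x - u) u
      rw [sub_add_cancel] at h1
      linarith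
    have h1 := cauP hF x 1 (M * w) one_pos (fun v hv => hM v (by
      have h1 := norm_add_le (v - x) x
      rw [sub_add_cancel] at h1
      linarith))
    rw [div_one] at h1
    have h2 := pr_le (deriv F x) e
    rw [he, mul_one] at h2
    exact h2.trans h1
  have hy' : ∀ x, ‖x - u‖ ≤ q1 * S → ‖pr (deriv F x) e‖ ≤ y := by
    intro x hx
    have h2 := pr_le (deriv F x) e
    rw [he, mul_one] at h2
    rw [hy]
    exact h2.trans (hcon x hx).le
  have hdif : Differentiable ℂ (fun x => pr (deriv F x) e) := dif_pr (dif_der hF) e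
  have hm0 : (m : ℝ) ≠ 0 := by
    have : (1 : ℝ) ≤ m := by exact_mod_cast hm
    linarith
  have hbd : ∀ x, ‖x - u‖ ≤ S → ‖pr (deriv F x) e‖ ≤ a / (4 * S) + 2 * (M * w) * S ^ m := by
    intro x hx
    have h1 := tay (fun x => pr (deriv F x) e) hdif u (M * w) y (q1 * S) S m (mul_pos hq0 hS0)
      (by nlinarith) hS hB hy' x hx
    refine h1.trans (le_of_eq ?_)
    have e1 : S / (q1 * S) = 1 / q1 := by
      field_simp
    have hqm : q1 ^ m ≠ 0 := (pow_pos hq0 m).ne'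
    rw [e1, hy, ← ha, div_pow, one_pow]
    field_simp
  have hmv : ‖pr (F v0) e - pr (F u) e‖ ≤ (a / (4 * S) + 2 * (M * w) * S ^ m) * ‖v0 - u‖ := by
    refine Convex.norm_image_sub_le_of_norm_hasDerivWithin_le (s := Metric.closedBall u S)
      (f := fun x => pr (F x) e) (f' := fun x => pr (deriv F x) e)
      (fun x _ => (pr_der hF e x).hasDerivWithinAt) (fun x hx => hbd x ?_)
      (convex_closedBall u S) ?_ ?_
    · rwa [mem_closedBall_iff_norm] at hx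
    · exact Metric.mem_closedBall_self hS0.le
    · rw [mem_closedBall_iff_norm]
      exact hv0
  rw [← pr_sub, hpe, hv0e, Complex.norm_real, Real.norm_of_nonneg (by linarith), ← ha] at hmv
  have hapos : 0 < a := by
    rw [ha]
    exact hpos
  have hc0 : 0 ≤ a / (4 * S) + 2 * (M * w) * S ^ m := by positivity
  have h3 : (a / (4 * S) + 2 * (M * w) * S ^ m) * ‖v0 - u‖ ≤
      (a / (4 * S) + 2 * (M * w) * S ^ m) * S := mul_le_mul_of_nonneg_left hv0 hc0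
  have h4 : (a / (4 * S) + 2 * (M * w) * S ^ m) * S = a / 4 + 2 * M * w * S ^ (m + 1) := by
    rw [pow_succ]
    field_simp
  rw [← ha] at ht
  linarith

end Pool.Agent.H70.PL
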