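import Pool.Agent.H70.SF.Def

/-!
SHARP RATE (MP_8f2e1c_an), piece 2 (PLANAR): definitions.

One chart. `F : ℂ → ℂ × ℂ` is an entire pair, `nm a = √(|a.1|² + |a.2|²)`, `Jc F u = F(u) ∧ F'(u)`.
`Nsc F u S`: `S` is the natural scale of `F` at `u` (the radius, at most 1, of the largest disc on which `F` differs from
`F u` by at most `nm (F u) / 2`).
`Sta`: the conclusion of the static piece in one chart. `Per`: a perturbed map. `Kon A ..`: the relations between the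
constants, `A` is a large absolute constant (`L = log d`, `t = d^(-1/2+e')`, `h = d^(-1/2)`, `q = β^5`, `q1 = q/(A L)`,
`qn = q1^m/(A m)`, `k1 = qn^2`, `k2 = qn^4`, `kap = d^(-e'/8)`, `S0 = d^(-e'/40)`, `m = ⌈80/e'⌉`).
-/

set_option autoImplicit false

namespace Pool.Agent.H70.PL

open Pool.H70.SF

/-- euclidean norm of a pair -/
noncomputable def nm (a : ℂ × ℂ) : ℝ := √(n2 a)

/-- hermitian product of pairs -/
noncomputable def pr (a e : ℂ × ℂ) : ℂ := a.1 * (starRingEnd ℂ) e.1 + a.2 * (starRingEnd ℂ) e.2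

/-- natural scale -/
def Nsc (F : ℂ → ℂ × ℂ) (u : ℂ) (S : ℝ) : Prop :=
  0 < S ∧ S ≤ 1 ∧ (∀ v, ‖v - u‖ ≤ S → nm (F v - F u) ≤ nm (F u) / 2) ∧
    (S = 1 ∨ ∃ v, ‖v - u‖ ≤ S ∧ nm (F v - F u) = nm (F u) / 2)

/-- the Jacobian `F ∧ F'` -/
noncomputable def Jc (F : ℂ → ℂ × ℂ) (u : ℂ) : ℂ := wd (F u) (deriv F u)

/-- conclusion of the static piece in one chart, weight `w` -/
structure Sta (M w t k1 k2 qn : ℝ) (F : ℂ → ℂ × ℂ) : Prop where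
  dif : Differentiable ℂ F
  bd : ∀ u, ‖u‖ ≤ 4 → nm (F u) ≤ M * w
  low : ∀ u, ‖u‖ ≤ 2 → k1 * t * w ≤ nm (F u)
  net : ∀ u S, ‖u‖ ≤ 3 / 2 → Nsc F u S → ∀ v, ‖v - u‖ ≤ S / 2 →
    ∃ n, ‖n - v‖ ≤ qn * S ∧ k2 * t * w * (nm (F n) + nm (deriv F n)) ≤ ‖Jc F n‖

/-- perturbed map: distance at most `τ w` (`τ = C1 h`) -/
structure Per (τ w : ℝ) (F F1 : ℂ → ℂ × ℂ) : Prop where
  dif : Differentiable ℂ F1
  near : ∀ u, ‖u‖ ≤ 3 → nm (F1 u - F u) ≤ τ * w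

/-- relations between the constants; `A` is a large absolute constant, `τ = C1 h` -/
structure Kon (A L t τ q q1 qn k1 k2 kap S0 : ℝ) (m : ℕ) : Prop where
  L1 : 1 ≤ L
  t1 : t ≤ 1
  tL : Real.exp (-L) ≤ t
  q1' : q ≤ 1 / 8
  q1p : 0 < q1
  q1q : A * L * q1 ≤ q
  qnL : Real.exp (-L) ≤ qn
  qnq : A * m * qn ≤ q1 ^ m
  m1 : 1 ≤ m
  k1L : Real.exp (-L) ≤ k1
  k1b : k1 ≤ 1
  k2L : Real.exp (-L) ≤ k2
  k2b : k2 ≤ 1
  S0p : 0 < S0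
  S0b : S0 ≤ 1 / 4
  S0k : A * S0 ^ m ≤ k1 * t
  kapL : Real.exp (-L) ≤ kap
  kapS : A * kap ≤ k2 * S0
  kapq : A * kap ≤ k2 * qn
  τ0 : 0 ≤ τ
  τk : A * τ ≤ kap * k1 * t

end Pool.Agent.H70.PL
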