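import Pool.Agent.H47.SF.Bc

/-!
SHARP RATE, piece 2 (PLANAR), module HAR: Harnack's inequality for zero free functions, in the form used in (F1).

`Pool.Agent.H47.SF.bc` (check the namespace) with centre `c = u`: `‖E n‖ ≤ ‖E u‖ exp (2 x l / (r - x))`, `l = log (X / ‖E u‖) ≥ 0`.
Let `ln = log (X / ‖E n‖) ≤ K` and `θ = 2 x / (r - x)`. As `x ≤ r / (8 K) ≤ r / 8`, `θ ≤ 16 x / (7 r) ≤ 2 / (7 K) ≤ 2 / 7`.
The inequality says `l - ln ≤ θ l`, so `l ≤ ln / (1 - θ) ≤ 7 K / 5` and `θ l ≤ 2 / 5`, `exp (2/5) ≤ 2`.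
-/

set_option autoImplicit false

namespace Pool.Agent.H70.PL

open Metric

theorem har (E : ℂ → ℂ) (u : ℂ) (r X x K : ℝ) (hE : DifferentiableOn ℂ E (ball u r))
    (hne : ∀ z ∈ ball u r, E z ≠ 0) (hX : ∀ z ∈ ball u r, ‖E z‖ ≤ X) (n : ℂ) (hn : ‖n - u‖ ≤ x)
    (hx : 0 < x) (h1 : 1 ≤ K) (hxr : 8 * x * K ≤ r) (hK : X * Real.exp (-K) ≤ ‖E n‖) :
    ‖E n‖ ≤ 2 * ‖E u‖ := by
  have hx1 : 8 * x * 1 ≤ 8 * x * K := by
    apply mul_le_mul_of_nonneg_left h1
    linarith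
  have hxr' : x < r := by linarith
  have hr : 0 < r := hx.trans hxr'
  have hu : u ∈ ball u r := mem_ball_self hr
  have hnb : n ∈ ball u r := by
    rw [mem_ball, dist_eq_norm]
    linarith
  have hEu : 0 < ‖E u‖ := norm_pos_iff.2 (hne u hu)
  have hEn : 0 < ‖E n‖ := norm_pos_iff.2 (hne n hnb)
  have hX0 : 0 < X := hEu.trans_le (hX u hu)
  have hbc := (Pool.Agent.H47.SF.bc hE hne hX hn hxr').1
  set l : ℝ := Real.log (X / ‖E u‖) with hl
  have hl0 : 0 ≤ l := by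
    apply Real.log_nonneg
    rw [le_div_iff₀ hEu, one_mul]
    exact hX u hu
  have hK0 : 0 < K := by linarith
  have hrx : 7 * x * K ≤ r - x := by nlinarith
  have hrx0 : 0 < r - x := by linarith
  have hθ : 2 * x * l / (r - x) ≤ 2 / (7 * K) * l := by
    rw [div_mul_eq_mul_div, div_le_div_iff₀ hrx0 (by positivity)]
    have h2 : 2 * l * (7 * x * K) ≤ 2 * l * (r - x) :=
      mul_le_mul_of_nonneg_left hrx (by positivity)
    linarith
  have hlog : Real.log ‖E n‖ ≤ Real.log ‖E u‖ + 2 * x * l / (r - x) := by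
    have h2 := Real.log_le_log hEn hbc
    rwa [Real.log_mul hEu.ne' (Real.exp_pos _).ne', Real.log_exp] at h2
  have hlu : l = Real.log X - Real.log ‖E u‖ := by
    rw [hl, Real.log_div hX0.ne' hEu.ne']
  have hln : Real.log X - K ≤ Real.log ‖E n‖ := by
    have h2 := Real.log_le_log (mul_pos hX0 (Real.exp_pos _)) hK
    rw [Real.log_mul hX0.ne' (Real.exp_pos _).ne', Real.log_exp] at h2
    linarith
  have h27 : 2 / (7 * K) ≤ 2 / 7 := by
    rw [div_le_div_iff₀ (by positivity) (by norm_num)]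
    linarith
  have h3 : l ≤ K + 2 / 7 * l := by
    have h4 : 2 / (7 * K) * l ≤ 2 / 7 * l := mul_le_mul_of_nonneg_right h27 hl0
    linarith
  have h5 : 2 / (7 * K) * l ≤ 2 / 5 := by
    rw [div_mul_eq_mul_div, div_le_iff₀ (by positivity)]
    linarith
  have h6 : Real.exp (2 * x * l / (r - x)) ≤ 2 := by
    have h7 : 2 * x * l / (r - x) ≤ Real.log 2 := by
      have := Real.log_two_gt_d9
      linarith
    calc Real.exp (2 * x * l / (r - x)) ≤ Real.exp (Real.log 2) := Real.exp_le_exp.2 h7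
      _ = 2 := Real.exp_log (by norm_num)
  calc ‖E n‖ ≤ ‖E u‖ * Real.exp (2 * x * l / (r - x)) := hbc
    _ ≤ ‖E u‖ * 2 := mul_le_mul_of_nonneg_left h6 hEu.le
    _ = 2 * ‖E u‖ := mul_comm _ _

end Pool.Agent.H70.PL
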