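import Pool.Agent.H70.PL.Big
import Pool.Agent.H70.PL.Har

/-!
SHARP RATE, piece 2 (PLANAR), module F1: lower bound of the Jacobian at points far from its zeros.

Let `a = nm (F u) ≥ k1 t w > 0`, `a ≤ M w`.
CLAIM: there is `n`, `‖n - u‖ ≤ 2 q1 S`, with `2 kap t w a / S ≤ ‖Jc F n‖`.
 Case A, `S0 ≤ S`: `net` with `v = u` gives `n`, `‖n - u‖ ≤ qn S`, `‖J n‖ ≥ k2 t w nm (F n) ≥ k2 t w a / 2` (`nsc_nm`), and
 `k2 / 2 ≥ 2 kap / S` as `A kap ≤ k2 S0`, `A ≥ 4`.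
 Case B, `S < S0 ≤ 1/4`: `16 M w S^(m+1) ≤ 16 M w S0^m ≤ 16 M w k1 t / A ≤ k1 t w ≤ a`, so `big` gives `v`, `‖v - u‖ ≤ q1 S`,
 `nm (F' v) ≥ q1^m a / (4 m S)`. `net` at `v` (`q1 ≤ 1/2`): `n`, `‖n - v‖ ≤ qn S`; by `mvP` for `deriv F` and `nsc_d2` on the ball
 of radius `S/2`, `nm (F' n) ≥ q1^m a / (4 m S) - 8 qn a / S ≥ q1^m a / (8 m S)` (`64 m qn ≤ q1^m`). So
 `‖J n‖ ≥ k2 t w q1^m a / (8 m S) ≥ k2 t w (A qn / 8) a / S ≥ 2 kap t w a / S`. (`qn ≤ q1` from `A m qn ≤ q1^m ≤ q1`.)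
HARNACK: `har` with `r = q S`, `x = 2 q1 S`, `X = 3 a² / S` (`nsc_J`), `K = A L / 16`: `8 x K = A L q1 S ≤ q S`;
 `X exp (-K) ≤ 2 kap t w a / S` because `3 M exp (-K) ≤ 2 kap t`: `kap t ≥ exp (-2 L)` and
 `K = A L / 16 ≥ (2 + 3 M) L ≥ 2 L + 3 M` (as `A ≥ 100 M`, `M ≥ 1`, `L ≥ 1`), `3 M exp (-3 M) ≤ 1`.
 So `2 kap t w a / S ≤ ‖J n‖ ≤ 2 ‖J u‖`.
-/

set_option autoImplicit false

namespace Pool.Agent.H70.PL

open Pool.H70.SF

theorem f1_aux (M A L t τ q q1 qn k1 k2 kap S0 : ℝ) (m : ℕ) (hM : 1 ≤ M) (hA : 100 * M ≤ A)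
    (hK : Kon A L t τ q q1 qn k1 k2 kap S0 m) :
    0 < A ∧ q1 ≤ 1 / 8 ∧ 0 < t ∧ 0 < qn ∧ 0 < k1 ∧ 0 < k2 ∧ 0 < kap ∧ qn ≤ q1 ∧
      64 * m * qn ≤ q1 ^ m ∧ q1 ≤ q ∧ 0 < q := by
  have hA0 : 0 < A := by linarith
  have hL := hK.L1
  have hq1p := hK.q1p
  have h1 : 1 ≤ A * L := by nlinarith
  have h2 : q1 ≤ A * L * q1 := by nlinarith
  have h3 : q1 ≤ q := h2.trans hK.q1q
  have h4 : q1 ≤ 1 / 8 := h3.trans hK.q1'
  have ht : 0 < t := lt_of_lt_of_le (Real.exp_pos _) hK.tL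
  have hqn : 0 < qn := lt_of_lt_of_le (Real.exp_pos _) hK.qnL
  have hk1 : 0 < k1 := lt_of_lt_of_le (Real.exp_pos _) hK.k1L
  have hk2 : 0 < k2 := lt_of_lt_of_le (Real.exp_pos _) hK.k2L
  have hkap : 0 < kap := lt_of_lt_of_le (Real.exp_pos _) hK.kapL
  have hm : (1 : ℝ) ≤ m := by exact_mod_cast hK.m1
  have h5 : q1 ^ m ≤ q1 := by
    have := pow_le_pow_of_le_one hq1p.le (by linarith : q1 ≤ 1) hK.m1
    simpa using this
  have h6 : 64 * m * qn ≤ A * m * qn := by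
    have : 0 ≤ (m : ℝ) * qn := by positivity
    nlinarith
  have h7 : qn ≤ 64 * m * qn := by nlinarith
  refine ⟨hA0, h4, ht, hqn, hk1, hk2, hkap, ?_, h6.trans hK.qnq, h3, lt_of_lt_of_le hq1p h3⟩
  exact h7.trans ((h6.trans hK.qnq).trans h5)

theorem f1_claim (M A L t τ q q1 qn k1 k2 kap S0 w : ℝ) (m : ℕ) (hM : 1 ≤ M) (hA : 100 * M ≤ A)
    (hw : 0 < w) (hK : Kon A L t τ q q1 qn k1 k2 kap S0 m) (F : ℂ → ℂ × ℂ)
    (hF : Sta M w t k1 k2 qn F) (u : ℂ) (hu : ‖u‖ ≤ 5 / 4) (S : ℝ) (hS : Nsc F u S) :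
    ∃ n, ‖n - u‖ ≤ 2 * q1 * S ∧ 2 * (kap * t * w * nm (F u) / S) ≤ ‖Jc F n‖ := by
  obtain ⟨hA0, hq18, ht, hqn, hk1, hk2, hkap, hqnq1, h64, hq1q, hq0⟩ :=
    f1_aux M A L t τ q q1 qn k1 k2 kap S0 m hM hA hK
  have hq1p := hK.q1p
  have hSp : 0 < S := hS.1
  have hS1 : S ≤ 1 := hS.2.1
  have hlow : k1 * t * w ≤ nm (F u) := hF.low u (by linarith)
  have hk1tw : 0 < k1 * t * w := by positivity
  obtain ⟨a, ha⟩ : ∃ a, a = nm (F u) := ⟨_, rfl⟩
  rw [← ha] at hlow ⊢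
  have hapos : 0 < a := lt_of_lt_of_le hk1tw hlow
  have hA4 : (100 : ℝ) ≤ A := by linarith
  have hm : (1 : ℝ) ≤ m := by exact_mod_cast hK.m1
  rcases le_or_gt S0 S with hc | hc
  · obtain ⟨n, hn1, hn2⟩ := hF.net u S (by linarith) hS u (by simp; linarith)
    have hn3 : ‖n - u‖ ≤ S := hn1.trans (by nlinarith)
    have hn4 := (nsc_nm hS n hn3).1
    rw [← ha] at hn4
    refine ⟨n, hn1.trans (by nlinarith), le_trans ?_ hn2⟩
    have h5 : 0 ≤ nm (deriv F n) := nm_nonneg _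
    have h6 : k2 * t * w * (a / 2) ≤ k2 * t * w * (nm (F n) + nm (deriv F n)) := by
      apply mul_le_mul_of_nonneg_left (by linarith) (by positivity)
    refine le_trans ?_ h6
    have h7 : 4 * kap ≤ k2 * S := by
      have h8 := hK.kapS
      have h9 : k2 * S0 ≤ k2 * S := mul_le_mul_of_nonneg_left hc hk2.le
      nlinarith
    have h10 : kap * t * w * a / S ≤ k2 * t * w * a / 4 := by
      rw [div_le_div_iff₀ hSp (by norm_num)]
      have : 0 ≤ t * w * a := by positivity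
      nlinarith
    linarith
  · have hS04 := hK.S0b
    have h16 : 16 * M * w * S ^ (m + 1) ≤ nm (F u) := by
      rw [← ha]
      refine le_trans ?_ hlow
      have e1 : S ^ (m + 1) ≤ S ^ m := pow_le_pow_of_le_one hSp.le hS1 (Nat.le_succ m)
      have e2 : S ^ m ≤ S0 ^ m := pow_le_pow_left₀ hSp.le hc.le m
      have e3 : 0 ≤ S0 ^ m := pow_nonneg hK.S0p.le m
      have e4 : 16 * M * S ^ (m + 1) ≤ k1 * t := by
        calc 16 * M * S ^ (m + 1) ≤ 16 * M * S0 ^ m :=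
              mul_le_mul_of_nonneg_left (e1.trans e2) (by linarith)
          _ ≤ A * S0 ^ m := mul_le_mul_of_nonneg_right (by linarith) e3
          _ ≤ k1 * t := hK.S0k
      nlinarith
    obtain ⟨v, hv1, hv2⟩ := big hF.dif M w hF.bd u hu (by rw [← ha]; exact hapos) S hS (by linarith)
      q1 hq1p (by linarith) m hK.m1 h16
    rw [← ha] at hv2
    obtain ⟨n, hn1, hn2⟩ := hF.net u S (by linarith) hS v (hv1.trans (by nlinarith))
    have hnu : ‖n - u‖ ≤ 2 * q1 * S := by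
      calc ‖n - u‖ = ‖(n - v) + (v - u)‖ := by congr 1; ring
        _ ≤ ‖n - v‖ + ‖v - u‖ := norm_add_le _ _
        _ ≤ qn * S + q1 * S := add_le_add hn1 hv1
        _ ≤ 2 * q1 * S := by nlinarith
    refine ⟨n, hnu, le_trans ?_ hn2⟩
    have hmv := mvP (dif_der hF.dif) u (S / 2) (8 * nm (F u) / S ^ 2)
      (fun x hx => nsc_d2 hF.dif hS x hx) v n (hv1.trans (by nlinarith)) (hnu.trans (by nlinarith))
    rw [← ha] at hmv
    have hvn : ‖v - n‖ ≤ qn * S := by rw [norm_sub_rev]; exact hn1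
    have h1 : 8 * a / S ^ 2 * ‖v - n‖ ≤ 8 * qn * a / S := by
      calc 8 * a / S ^ 2 * ‖v - n‖ ≤ 8 * a / S ^ 2 * (qn * S) :=
            mul_le_mul_of_nonneg_left hvn (by positivity)
        _ = 8 * qn * a / S := by field_simp
    have h2 : nm (deriv F v) ≤ nm (deriv F n) + nm (deriv F v - deriv F n) := nm_rev _ _
    have h3 : 8 * qn * a / S ≤ q1 ^ m * a / (8 * m * S) := by
      rw [div_le_div_iff₀ hSp (by positivity)]
      have h31 : 0 ≤ a * S := by positivity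
      calc 8 * qn * a * (8 * m * S) = (64 * m * qn) * (a * S) := by ring
        _ ≤ q1 ^ m * (a * S) := mul_le_mul_of_nonneg_right h64 h31
        _ = q1 ^ m * a * S := by ring
    have h4 : q1 ^ m * a / (4 * m * S) = 2 * (q1 ^ m * a / (8 * m * S)) := by
      have hm0 : (m : ℝ) ≠ 0 := by positivity
      have hS0 : S ≠ 0 := hSp.ne'
      obtain ⟨x, hx⟩ : ∃ x, x = q1 ^ m := ⟨_, rfl⟩
      rw [← hx]
      field_simp
      ring
    have h5 : q1 ^ m * a / (8 * m * S) ≤ nm (deriv F n) := by linarith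
    have h6 : 8 * qn * a / S ≤ nm (F n) + nm (deriv F n) := by
      have := nm_nonneg (F n)
      linarith
    have h7 : k2 * t * w * (8 * qn * a / S) ≤ k2 * t * w * (nm (F n) + nm (deriv F n)) :=
      mul_le_mul_of_nonneg_left h6 (by positivity)
    refine le_trans ?_ h7
    have h8 : 2 * kap ≤ k2 * (8 * qn) := by
      have h9 := hK.kapq
      have h10 : 2 * kap ≤ A * kap := mul_le_mul_of_nonneg_right (by linarith) hkap.le
      have h11 : 0 < k2 * qn := mul_pos hk2 hqn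
      calc 2 * kap ≤ k2 * qn := h10.trans h9
        _ ≤ 8 * (k2 * qn) := by linarith
        _ = k2 * (8 * qn) := by ring
    calc 2 * (kap * t * w * a / S) = (2 * kap) * (t * w * a / S) := by ring
      _ ≤ (k2 * (8 * qn)) * (t * w * a / S) := mul_le_mul_of_nonneg_right h8 (by positivity)
      _ = k2 * t * w * (8 * qn * a / S) := by ring

/-- (F1) -/
theorem f1 (M A L t τ q q1 qn k1 k2 kap S0 w : ℝ) (m : ℕ) (hM : 1 ≤ M) (hA : 100 * M ≤ A)
    (hw : 0 < w) (hK : Kon A L t τ q q1 qn k1 k2 kap S0 m) (F : ℂ → ℂ × ℂ)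
    (hF : Sta M w t k1 k2 qn F) (u : ℂ) (hu : ‖u‖ ≤ 5 / 4) (S : ℝ) (hS : Nsc F u S)
    (hz : ∀ z, ‖z - u‖ < q * S → Jc F z ≠ 0) :
    kap * t * w * nm (F u) / S ≤ ‖Jc F u‖ := by
  obtain ⟨hA0, hq18, ht, hqn, hk1, hk2, hkap, hqnq1, h64, hq1q, hq0⟩ :=
    f1_aux M A L t τ q q1 qn k1 k2 kap S0 m hM hA hK
  obtain ⟨n, hn1, hn2⟩ := f1_claim M A L t τ q q1 qn k1 k2 kap S0 w m hM hA hw hK F hF u hu S hS
  have hSp : 0 < S := hS.1
  have hL := hK.L1
  have hq1p := hK.q1p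
  have hlow : k1 * t * w ≤ nm (F u) := hF.low u (by linarith)
  have hk1tw : 0 < k1 * t * w := by positivity
  have hbd : nm (F u) ≤ M * w := hF.bd u (by linarith)
  have hapos : 0 < nm (F u) := lt_of_lt_of_le hk1tw hlow
  have hAL : 100 * M * L ≤ A * L := mul_le_mul_of_nonneg_right hA (by linarith)
  have hML : 1 ≤ M * L := by nlinarith
  have hKK : 3 * nm (F u) ^ 2 / S * Real.exp (-(A * L / 16)) ≤
      2 * (kap * t * w * nm (F u) / S) := by
    have e1 : Real.exp (-L) * Real.exp (-L) ≤ kap * t :=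
      mul_le_mul hK.kapL hK.tL (Real.exp_pos _).le hkap.le
    have e2 : -(A * L / 16) ≤ (-L + -L) + -(3 * M) := by nlinarith
    have e3 : Real.exp (-(A * L / 16)) ≤ Real.exp (-L) * Real.exp (-L) * Real.exp (-(3 * M)) := by
      rw [← Real.exp_add, ← Real.exp_add]
      exact Real.exp_le_exp.2 e2
    have e4 : 3 * M * Real.exp (-(3 * M)) ≤ 1 := by
      rw [Real.exp_neg, ← div_eq_mul_inv, div_le_one (Real.exp_pos _)]
      linarith [Real.add_one_le_exp (3 * M)]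
    have e5 : 3 * M * Real.exp (-(A * L / 16)) ≤ kap * t := by
      calc 3 * M * Real.exp (-(A * L / 16))
          ≤ 3 * M * (Real.exp (-L) * Real.exp (-L) * Real.exp (-(3 * M))) :=
            mul_le_mul_of_nonneg_left e3 (by linarith)
        _ = (Real.exp (-L) * Real.exp (-L)) * (3 * M * Real.exp (-(3 * M))) := by ring
        _ ≤ (Real.exp (-L) * Real.exp (-L)) * 1 :=
            mul_le_mul_of_nonneg_left e4 (by positivity)
        _ ≤ kap * t := by rw [mul_one]; exact e1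
    have e6 : 3 * nm (F u) * Real.exp (-(A * L / 16)) ≤ kap * t * w := by
      calc 3 * nm (F u) * Real.exp (-(A * L / 16))
          ≤ 3 * (M * w) * Real.exp (-(A * L / 16)) := by
            apply mul_le_mul_of_nonneg_right (by linarith) (Real.exp_pos _).le
        _ = (3 * M * Real.exp (-(A * L / 16))) * w := by ring
        _ ≤ kap * t * w := mul_le_mul_of_nonneg_right e5 hw.le
    have e7 : 0 ≤ kap * t * w * nm (F u) / S := by positivity
    calc 3 * nm (F u) ^ 2 / S * Real.exp (-(A * L / 16))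
        = (3 * nm (F u) * Real.exp (-(A * L / 16))) * (nm (F u) / S) := by ring
      _ ≤ (kap * t * w) * (nm (F u) / S) := mul_le_mul_of_nonneg_right e6 (by positivity)
      _ = kap * t * w * nm (F u) / S := by ring
      _ ≤ 2 * (kap * t * w * nm (F u) / S) := by linarith
  have hh := har (Jc F) u (q * S) (3 * nm (F u) ^ 2 / S) (2 * q1 * S) (A * L / 16)
    (dif_Jc hF.dif).differentiableOn
    (fun z hz' => hz z (by rwa [Metric.mem_ball, dist_eq_norm] at hz'))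
    (fun z hz' => nsc_J hF.dif hS z (by
      rw [Metric.mem_ball, dist_eq_norm] at hz'
      have := hK.q1'
      nlinarith))
    n hn1 (by positivity) (by nlinarith) (by
      have := hK.q1q
      calc 8 * (2 * q1 * S) * (A * L / 16) = (A * L * q1) * S := by ring
        _ ≤ q * S := mul_le_mul_of_nonneg_right this hSp.le)
    (hKK.trans hn2)
  linarith

end Pool.Agent.H70.PL
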