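import Pool.Agent.H70.PL.Cau

/-!
SHARP RATE, piece 2 (PLANAR), module SCA: estimates at the natural scale (2a).

`nsc_sch` is `schP` with `r = S`, `B = nm (F u) / 2`. `nsc_nm`: triangle inequality. `nsc_d1`: `cauD` with `c = F u`, radius
`S/4`, `B = nm (F u) / 2`. `nsc_d2`: `cauP` for `deriv F` with radius `S/4` and the bound of `nsc_d1`. `nsc_J`: `wd_le`.
`nsc_d0`: Schwarz at the centre: `nm (F' u) ≤ nm (F u) / (2 S)` (`cauD` with radius `S`).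
-/

set_option autoImplicit false

namespace Pool.Agent.H70.PL

open Pool.H70.SF

theorem nsc_sch {F : ℂ → ℂ × ℂ} (hF : Differentiable ℂ F) {u : ℂ} {S : ℝ} (h : Nsc F u S) (x : ℂ)
    (hx : ‖x - u‖ ≤ S) : nm (F x - F u) ≤ ‖x - u‖ / S * (nm (F u) / 2) :=
  schP hF u S (nm (F u) / 2) h.1 h.2.2.1 x hx

theorem nsc_nm {F : ℂ → ℂ × ℂ} {u : ℂ} {S : ℝ} (h : Nsc F u S) (x : ℂ)
    (hx : ‖x - u‖ ≤ S) : nm (F u) / 2 ≤ nm (F x) ∧ nm (F x) ≤ 3 / 2 * nm (F u) := by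
  have h1 := h.2.2.1 x hx
  have h2 := nm_rev (F x) (F u)
  have h3 := nm_rev (F u) (F x)
  rw [nm_sub_comm (F u) (F x)] at h3
  constructor <;> linarith

theorem nsc_d0 {F : ℂ → ℂ × ℂ} (hF : Differentiable ℂ F) {u : ℂ} {S : ℝ} (h : Nsc F u S) :
    nm (deriv F u) ≤ nm (F u) / (2 * S) := by
  have h1 := cauD hF (F u) u S (nm (F u) / 2) h.1 h.2.2.1
  rwa [div_div] at h1

theorem nsc_d1 {F : ℂ → ℂ × ℂ} (hF : Differentiable ℂ F) {u : ℂ} {S : ℝ} (h : Nsc F u S) (x : ℂ)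
    (hx : ‖x - u‖ ≤ 3 / 4 * S) : nm (deriv F x) ≤ 2 * nm (F u) / S := by
  have hS := h.1
  have h1 := cauD hF (F u) x (S / 4) (nm (F u) / 2) (by linarith) fun v hv => by
    refine h.2.2.1 v ?_
    have h2 : v - u = (v - x) + (x - u) := by ring
    rw [h2]
    have := norm_add_le (v - x) (x - u)
    linarith
  refine h1.trans (le_of_eq ?_)
  field_simp
  ring

theorem nsc_d2 {F : ℂ → ℂ × ℂ} (hF : Differentiable ℂ F) {u : ℂ} {S : ℝ} (h : Nsc F u S) (x : ℂ)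
    (hx : ‖x - u‖ ≤ S / 2) : nm (deriv (deriv F) x) ≤ 8 * nm (F u) / S ^ 2 := by
  have hS := h.1
  have h1 := cauP (dif_der hF) x (S / 4) (2 * nm (F u) / S) (by linarith) fun v hv => by
    refine nsc_d1 hF h v ?_
    have h2 : v - u = (v - x) + (x - u) := by ring
    rw [h2]
    have := norm_add_le (v - x) (x - u)
    linarith
  refine h1.trans (le_of_eq ?_)
  field_simp
  ring

theorem nsc_J {F : ℂ → ℂ × ℂ} (hF : Differentiable ℂ F) {u : ℂ} {S : ℝ} (h : Nsc F u S) (x : ℂ)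
    (hx : ‖x - u‖ ≤ 3 / 4 * S) : ‖Jc F x‖ ≤ 3 * nm (F u) ^ 2 / S := by
  have hS := h.1
  have h1 := nsc_d1 hF h x hx
  have h2 := (nsc_nm h x (by linarith)).2
  calc ‖Jc F x‖ ≤ nm (F x) * nm (deriv F x) := wd_le _ _
    _ ≤ (3 / 2 * nm (F u)) * (2 * nm (F u) / S) :=
        mul_le_mul h2 h1 (nm_nonneg _) (mul_nonneg (by norm_num) (nm_nonneg _))
    _ = 3 * nm (F u) ^ 2 / S := by ring

end Pool.Agent.H70.PL
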